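import Pool.Agent.H73W.Gamma

set_option autoImplicit false

namespace Pool.Agent.H73W

open scoped RealInnerProductSpace

abbrev V9 := EuclideanSpace ℝ (Fin 9)

/-- Clifford action of a vector -/
noncomputable def cl : V9 →ₗ[ℝ] Alg where
  toFun v := ∑ k, v k • gm k
  map_add' v w := by simp [add_smul, Finset.sum_add_distrib]
  map_smul' c v := by simp [Finset.smul_sum, mul_smul]

theorem cl_apply (v : V9) : cl v = ∑ k, v k • gm k := rfl

theorem cl_continuous : Continuous cl := LinearMap.continuous_of_finiteDimensional _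

theorem cl_anti (v w : V9) : cl v * cl w + cl w * cl v = (2 * ⟪v, w⟫) • (1 : Alg) := by
  have h1 : cl v * cl w = ∑ k, ∑ l, (v k * w l) • (gm k * gm l) := by
    rw [cl_apply, cl_apply, Finset.sum_mul_sum]
    refine Finset.sum_congr rfl fun k _ => Finset.sum_congr rfl fun l _ => ?_
    rw [smul_mul_smul_comm]
  have h2 : cl w * cl v = ∑ k, ∑ l, (v k * w l) • (gm l * gm k) := by
    rw [cl_apply, cl_apply, Finset.sum_mul_sum, Finset.sum_comm]
    refine Finset.sum_congr rfl fun k _ => Finset.sum_congr rfl fun l _ => ?_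
    rw [smul_mul_smul_comm, mul_comm]
  have h3 : ∀ k l : Fin 9, gm k * gm l + gm l * gm k = if k = l then (2:ℝ) • (1 : Alg) else 0 := by
    intro k l
    by_cases h : k = l
    · subst h; rw [if_pos rfl, gm_sq, two_smul]
    · rw [if_neg h, gm_anti k l h]; simp
  rw [h1, h2, ← Finset.sum_add_distrib]
  simp_rw [← Finset.sum_add_distrib, ← smul_add, h3]
  simp only [smul_ite, smul_zero, Finset.sum_ite_eq, Finset.mem_univ, if_true]
  simp_rw [smul_smul]
  rw [← Finset.sum_smul]
  congr 1
  rw [PiLp.inner_apply, Finset.mul_sum]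
  refine Finset.sum_congr rfl fun k _ => ?_
  simp [RCLike.inner_apply]
  ring

theorem cl_sq (v : V9) (h : ‖v‖ = 1) : cl v * cl v = 1 := by
  have h1 := cl_anti v v
  rw [real_inner_self_eq_norm_sq, h] at h1
  have h2 : (2:ℝ) • (cl v * cl v) = (2:ℝ) • (1 : Alg) := by
    rw [two_smul, h1]; norm_num
  exact smul_right_injective _ (two_ne_zero) h2

theorem cl_orth (v w : V9) (h : ⟪v, w⟫ = 0) : cl v * cl w = - (cl w * cl v) := by
  have h1 := cl_anti v w
  rw [h] at h1
  simp at h1
  exact eq_neg_of_add_eq_zero_left h1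

/-- sign-commutation -/
def SC (s : ℝ) (a x : Alg) : Prop := a * x = s • (x * a)

theorem SC.mul {s t : ℝ} {a x y : Alg} (h1 : SC s a x) (h2 : SC t a y) : SC (s * t) a (x * y) := by
  unfold SC at *
  rw [← mul_assoc, h1, smul_mul_assoc, mul_assoc, h2, mul_smul_comm, smul_smul, mul_assoc]

/-- system of n anticommuting involutions -/
structure IsCl {n : ℕ} (g : Fin n → Alg) : Prop where
  sq : ∀ i, g i * g i = 1
  anti : ∀ i j, i ≠ j → g i * g j = - (g j * g i)

theorem IsCl.sc {n : ℕ} {g : Fin n → Alg} (h : IsCl g) (i j : Fin n) :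
    SC (if i = j then 1 else -1) (g i) (g j) := by
  unfold SC
  by_cases hij : i = j
  · subst hij; simp
  · rw [if_neg hij, h.anti i j hij]; simp

theorem isCl_of_orthonormal {n : ℕ} {w : Fin n → V9} (h : Orthonormal ℝ w) :
    IsCl (fun i => cl (w i)) where
  sq i := cl_sq _ (h.1 i)
  anti i j hij := cl_orth _ _ (h.2 hij)

/-- the product of seven -/
def J7 (g : Fin 7 → Alg) : Alg := g 0 * (g 1 * (g 2 * (g 3 * (g 4 * (g 5 * g 6)))))

theorem J7_comm {g : Fin 7 → Alg} (h : IsCl g) (i : Fin 7) : g i * J7 g = J7 g * g i := by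
  have h1 := (h.sc i 0).mul ((h.sc i 1).mul ((h.sc i 2).mul ((h.sc i 3).mul ((h.sc i 4).mul
    ((h.sc i 5).mul (h.sc i 6))))))
  have h2 : ((if i = 0 then 1 else -1) * ((if i = 1 then 1 else -1) * ((if i = 2 then 1 else -1) *
    ((if i = 3 then 1 else -1) * ((if i = 4 then 1 else -1) * ((if i = 5 then 1 else -1) *
      (if i = 6 then 1 else -1)))))) : ℝ) = 1 := by
    fin_cases i <;> simp
  rw [h2] at h1
  unfold SC at h1
  rw [one_smul] at h1
  exact h1

theorem J7_anti {g : Fin 7 → Alg} {a : Alg} (ha : ∀ i, a * g i = - (g i * a)) :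
    a * J7 g = - (J7 g * a) := by
  have hs : ∀ i, SC (-1) a (g i) := by
    intro i; unfold SC; rw [ha]; simp
  have h1 := (hs 0).mul ((hs 1).mul ((hs 2).mul ((hs 3).mul ((hs 4).mul
    ((hs 5).mul (hs 6))))))
  norm_num [SC] at h1
  exact h1

theorem IsCl.scn {n : ℕ} {g : Fin n → Alg} (h : IsCl g) (i j : Fin n) (hij : i ≠ j) :
    SC (-1) (g i) (g j) := by
  have := h.sc i j; rwa [if_neg hij] at this

theorem IsCl.scs {n : ℕ} {g : Fin n → Alg} (h : IsCl g) (i : Fin n) :
    SC 1 (g i) (g i) := by
  have := h.sc i i; rwa [if_pos rfl] at this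

theorem J7_sq {g : Fin 7 → Alg} (h : IsCl g) : J7 g * J7 g = -1 := by
  have hJ : J7 g = g 0 * (g 1 * (g 2 * (g 3 * (g 4 * (g 5 * g 6))))) := rfl
  have c := J7_comm h
  have e1 : J7 g * J7 g = g 0 * (g 1 * (g 2 * (g 3 * (g 4 * (g 5 * (g 6 * J7 g)))))) := by
    conv_lhs => rw [hJ]
    simp only [mul_assoc]
    rfl
  have s6 : g 6 * J7 g = g 0 * (g 1 * (g 2 * (g 3 * (g 4 * g 5)))) := by
    rw [c 6, hJ]; simp only [mul_assoc]; rw [h.sq 6, mul_one]
  have t5 : g 5 * (g 0 * (g 1 * (g 2 * (g 3 * (g 4 * g 5))))) = - (g 0 * (g 1 * (g 2 * (g 3 * g 4)))) := by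
    have h1 := (h.scn 5 0 (by decide)).mul ((h.scn 5 1 (by decide)).mul
      ((h.scn 5 2 (by decide)).mul ((h.scn 5 3 (by decide)).mul ((h.scn 5 4 (by decide)).mul
      (h.scs 5)))))
    norm_num [SC] at h1
    rw [h1]; simp only [mul_assoc, h.sq, mul_one]
  have t4 : g 4 * (g 0 * (g 1 * (g 2 * (g 3 * g 4)))) = (g 0 * (g 1 * (g 2 * g 3))) := by
    have h1 := (h.scn 4 0 (by decide)).mul ((h.scn 4 1 (by decide)).mul
      ((h.scn 4 2 (by decide)).mul ((h.scn 4 3 (by decide)).mul (h.scs 4))))
    norm_num [SC] at h1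
    rw [h1]; simp only [mul_assoc, h.sq, mul_one]
  have t3 : g 3 * (g 0 * (g 1 * (g 2 * g 3))) = - (g 0 * (g 1 * g 2)) := by
    have h1 := (h.scn 3 0 (by decide)).mul ((h.scn 3 1 (by decide)).mul
      ((h.scn 3 2 (by decide)).mul (h.scs 3)))
    norm_num [SC] at h1
    rw [h1]; simp only [mul_assoc, h.sq, mul_one]
  have t2 : g 2 * (g 0 * (g 1 * g 2)) = (g 0 * g 1) := by
    have h1 := (h.scn 2 0 (by decide)).mul ((h.scn 2 1 (by decide)).mul (h.scs 2))
    norm_num [SC] at h1
    rw [h1]; simp only [mul_assoc, h.sq, mul_one]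
  have t1 : g 1 * (g 0 * g 1) = - g 0 := by
    have h1 := (h.scn 1 0 (by decide)).mul (h.scs 1)
    norm_num [SC] at h1
    rw [h1]; simp only [mul_assoc, h.sq, mul_one]
  rw [e1, s6, t5]
  simp only [mul_neg]
  rw [t4, t3]
  simp only [mul_neg, neg_neg]
  rw [t2, t1]
  simp only [mul_neg]
  rw [h.sq]

/-- the commutant of any orthonormal basis is scalar -/
theorem commutant_basis (b : OrthonormalBasis (Fin 9) ℝ V9) {X : Alg}
    (h : ∀ i, cl (b i) * X = X * cl (b i)) : X = (X 0 0) • (1 : Alg) := by
  have h1 : ∀ v : V9, cl v * X = X * cl v := by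
    intro v
    rw [← b.sum_repr v]
    simp only [map_sum, map_smul, Finset.sum_mul, Finset.mul_sum, smul_mul_assoc,
      mul_smul_comm, h]
  apply commutant_scalar
  intro k
  have h2 : cl (EuclideanSpace.single k 1) = gm k := by
    rw [cl_apply]
    simp [Finset.sum_ite_eq', ite_smul]
  rw [← h2]; exact h1 _

/-- the commutant of seven anticommuting Clifford elements is spanned by 1 and their product -/
theorem commutant_seven {w : Fin 7 → V9} (hw : Orthonormal ℝ w) {X : Alg}
    (hX : ∀ i, cl (w i) * X = X * cl (w i)) :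
    ∃ c d : ℝ, X = c • (1 : Alg) + d • J7 (fun i => cl (w i)) := by
  -- complete to an orthonormal basis
  let v : Fin 9 → V9 := fun i => if h : i.val < 7 then w ⟨i.val, h⟩ else 0
  let s : Set (Fin 9) := {i | i.val < 7}
  have hv : Orthonormal ℝ (s.domRestrict v) := by
    have : s.domRestrict v = w ∘ (fun i : s => (⟨i.1.val, i.2⟩ : Fin 7)) := by
      funext i
      have : i.1.val < 7 := i.2
      simp [v, Set.domRestrict, this]
    rw [this]
    apply hw.comp
    intro a b hab
    apply Subtype.ext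
    apply Fin.ext
    simpa using hab
  obtain ⟨b, hb⟩ := Orthonormal.exists_orthonormalBasis_extension_of_card_eq
    (𝕜 := ℝ) (E := V9) (ι := Fin 9) (by simp) hv
  have hbw : ∀ i : Fin 7, b ⟨i.val, by omega⟩ = w i := by
    intro i
    rw [hb _ (show (⟨i.val, by omega⟩ : Fin 9) ∈ s from i.2)]
    simp [v]
  set g : Fin 7 → Alg := fun i => cl (w i) with hg
  have hgc : IsCl g := isCl_of_orthonormal hw
  have hgb : IsCl (fun i => cl (b i)) := isCl_of_orthonormal b.orthonormal
  set a : Alg := cl (b 7) with ha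
  set c : Alg := cl (b 8) with hc
  have hai : ∀ i : Fin 7, a * g i = - (g i * a) := by
    intro i
    have := hgb.anti 7 ⟨i.val, by omega⟩ (by intro h; have := congrArg Fin.val h; simp at this; omega)
    simpa [hbw] using this
  have hci : ∀ i : Fin 7, c * g i = - (g i * c) := by
    intro i
    have := hgb.anti 8 ⟨i.val, by omega⟩ (by intro h; have := congrArg Fin.val h; simp at this; omega)
    simpa [hbw] using this
  have hac : a * c = - (c * a) := hgb.anti 7 8 (by decide)
  have haa : a * a = 1 := hgb.sq 7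
  have hcc : c * c = 1 := hgb.sq 8
  set J : Alg := J7 g with hJ
  have hJJ : J * J = -1 := J7_sq hgc
  have hJg : ∀ i, g i * J = J * g i := J7_comm hgc
  have hJa : a * J = - (J * a) := J7_anti hai
  have hJc : c * J = - (J * c) := J7_anti hci
  -- reduction to all nine
  have comm_all : ∀ Y : Alg, (∀ i, g i * Y = Y * g i) → a * Y = Y * a → c * Y = Y * c →
      Y = (Y 0 0) • (1 : Alg) := by
    intro Y h1 h2 h3
    apply commutant_basis b
    intro i
    by_cases h7 : i.val < 7
    · have := h1 ⟨i.val, h7⟩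
      simp only [hg] at this
      rw [← hbw] at this
      exact this
    · have h78 : i = 7 ∨ i = 8 := by
        rcases i with ⟨i, hi⟩
        simp only [not_lt] at h7
        have : i = 7 ∨ i = 8 := by omega
        rcases this with h | h
        · left; subst h; rfl
        · right; subst h; rfl
      rcases h78 with h | h
      · subst h; exact h2
      · subst h; exact h3
  -- the product of all nine is a scalar
  have hOm : ∃ k : ℝ, k ≠ 0 ∧ J * (a * c) = k • (1 : Alg) := by
    have h1 := comm_all (J * (a * c)) (by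
      intro i
      have e1 : g i * a = - (a * g i) := by rw [hai, neg_neg]
      have e2 : g i * c = - (c * g i) := by rw [hci, neg_neg]
      calc g i * (J * (a * c)) = (g i * J) * a * c := by simp only [mul_assoc]
        _ = J * (g i * a) * c := by rw [hJg]; simp only [mul_assoc]
        _ = - (J * a * (g i * c)) := by rw [e1]; simp only [mul_assoc, mul_neg, neg_mul]
        _ = J * (a * c) * g i := by rw [e2]; simp only [mul_assoc, mul_neg, neg_neg])
      (by
        calc a * (J * (a * c)) = (a * J) * a * c := by simp only [mul_assoc]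
          _ = - (J * (a * a) * c) := by rw [hJa]; simp only [mul_assoc, neg_mul]
          _ = - (J * a * (a * c)) := by simp only [mul_assoc]
          _ = J * (a * c) * a := by
            have e : c * a = - (a * c) := by rw [hac, neg_neg]
            simp only [mul_assoc, e, mul_neg])
      (by
        calc c * (J * (a * c)) = (c * J) * a * c := by simp only [mul_assoc]
          _ = - (J * (c * a) * c) := by rw [hJc]; simp only [mul_assoc, neg_mul]
          _ = J * (a * c) * c := by rw [hac]; simp only [mul_assoc, mul_neg, neg_mul])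
    refine ⟨_, ?_, h1⟩
    intro h0
    rw [h0, zero_smul] at h1
    have : (1 : Alg) = 0 := by
      calc (1 : Alg) = a * (a * 1) := by rw [← mul_assoc, haa, one_mul]
        _ = a * ((-(J * J)) * a) := by rw [hJJ]; simp
        _ = a * (-(J * J) * (a * (c * c))) := by rw [hcc, mul_one]
        _ = - (a * (J * ((J * (a * c)) * c))) := by simp only [mul_assoc, neg_mul, mul_neg]
        _ = 0 := by rw [h1]; simp
    exact one_ne_zero this
  obtain ⟨k, hk, hOm⟩ := hOm
  have hcJ : a * c = (-k) • J := by
    calc a * c = - ((J * J) * (a * c)) := by rw [hJJ]; simp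
      _ = - (J * (J * (a * c))) := by rw [mul_assoc]
      _ = _ := by rw [hOm]; simp
  have hXJ : J * X = X * J := by
    have h0 := hX 0; have h1 := hX 1; have h2 := hX 2; have h3 := hX 3
    have h4 := hX 4; have h5 := hX 5; have h6 := hX 6
    show J7 g * X = X * J7 g
    have hs : ∀ i, SC 1 X (g i) := by
      intro i; unfold SC; rw [one_smul]; exact (hX i).symm
    have h1 := (hs 0).mul ((hs 1).mul ((hs 2).mul ((hs 3).mul ((hs 4).mul
      ((hs 5).mul (hs 6))))))
    norm_num [SC] at h1
    exact h1.symm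
  have hXac : (a * c) * X = X * (a * c) := by
    rw [hcJ, smul_mul_assoc, mul_smul_comm, hXJ]
  have hcXc : c * X * c = a * X * a := by
    calc c * X * c = a * (a * c * X) * c := by
            rw [← mul_assoc, ← mul_assoc, haa, one_mul]
      _ = a * (X * (a * c)) * c := by rw [hXac]
      _ = a * X * a * (c * c) := by simp only [mul_assoc]
      _ = a * X * a := by rw [hcc, mul_one]
  set Yp : Alg := X + a * X * a with hYp
  set Ym : Alg := X - a * X * a with hYm
  have gi_aXa : ∀ i, g i * (a * X * a) = (a * X * a) * g i := by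
    intro i
    have e1 : g i * a = - (a * g i) := by rw [hai, neg_neg]
    calc g i * (a * X * a) = (g i * a) * X * a := by simp only [mul_assoc]
      _ = - (a * (g i * X) * a) := by rw [e1]; simp only [mul_assoc, neg_mul]
      _ = - (a * X * (g i * a)) := by
        rw [show g i * X = X * g i from hX i]; simp only [mul_assoc]
      _ = (a * X * a) * g i := by rw [e1]; simp only [mul_assoc, mul_neg, neg_neg]
  have a_aXa : a * (a * X * a) = X * a := by
    rw [← mul_assoc, ← mul_assoc, haa, one_mul]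
  have aXa_a : (a * X * a) * a = a * X := by
    rw [mul_assoc, haa, mul_one]
  have c_aXa : c * (a * X * a) = X * c := by
    rw [← hcXc, ← mul_assoc, ← mul_assoc, hcc, one_mul]
  have aXa_c : (a * X * a) * c = c * X := by
    rw [← hcXc, mul_assoc, hcc, mul_one]
  have hp := comm_all Yp (by intro i; rw [hYp, mul_add, add_mul, hX i, gi_aXa])
    (by rw [hYp, mul_add, add_mul, a_aXa, aXa_a, add_comm])
    (by rw [hYp, mul_add, add_mul, c_aXa, aXa_c, add_comm])
  have hm := comm_all (Ym * J) (by
      intro i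
      rw [← mul_assoc, show g i * Ym = Ym * g i by rw [hYm, mul_sub, sub_mul, hX i, gi_aXa],
        mul_assoc, hJg, mul_assoc])
    (by
      rw [← mul_assoc, show a * Ym = - (Ym * a) by
        rw [hYm, mul_sub, sub_mul, a_aXa, aXa_a]; abel]
      rw [neg_mul, mul_assoc, hJa, mul_neg, neg_neg, mul_assoc])
    (by
      rw [← mul_assoc, show c * Ym = - (Ym * c) by
        rw [hYm, mul_sub, sub_mul, c_aXa, aXa_c]; abel]
      rw [neg_mul, mul_assoc, hJc, mul_neg, neg_neg, mul_assoc])
  have hYm2 : Ym = (-(Ym * J) 0 0) • J := by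
    calc Ym = - (Ym * (J * J)) := by rw [hJJ]; simp
      _ = - ((Ym * J) * J) := by rw [mul_assoc]
      _ = - (((Ym * J) 0 0) • (1 : Alg) * J) := by rw [← hm]
      _ = _ := by rw [smul_mul_assoc, one_mul, neg_smul]
  refine ⟨(1/2) * Yp 0 0, (1/2) * (-(Ym * J) 0 0), ?_⟩
  have : X = (1/2 : ℝ) • (Yp + Ym) := by
    rw [hYp, hYm]
    rw [show X + a * X * a + (X - a * X * a) = (2:ℝ) • X by rw [two_smul]; abel, smul_smul]
    norm_num
  rw [this, smul_add, mul_smul, mul_smul, ← hp, ← hYm2]

end Pool.Agent.H73W
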