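import Pool.Agent.H73W.Manifold

set_option autoImplicit false

namespace Pool.Agent.H73W

open scoped Manifold ContDiff

/-- linear part of the group elements -/
noncomputable def LL (k : ℤ) : E3 →L[ℝ] E3 := LinearMap.toContinuousLinearMap
  { toFun := fun p => !₂[p 0, p 1, (ps k : ℝ) * p 2]
    map_add' := by
      intro p q; ext i; fin_cases i <;> simp; ring
    map_smul' := by
      intro c p; ext i; fin_cases i <;> simp; ring }

theorem LL_inj (k : ℤ) (a : E3) (h : LL k a = 0) : a = 0 := by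
  have h0 : (LL k a) 0 = 0 := by rw [h]; rfl
  have h1 : (LL k a) 1 = 0 := by rw [h]; rfl
  have h2 : (LL k a) 2 = 0 := by rw [h]; rfl
  have e0 : (LL k a) 0 = a 0 := rfl
  have e1 : (LL k a) 1 = a 1 := rfl
  have e2 : (LL k a) 2 = (ps k : ℝ) * a 2 := rfl
  apply ext3
  · rw [← e0, h0]; rfl
  · rw [← e1, h1]; rfl
  · have : (ps k : ℝ) * ((ps k : ℝ) * a 2) = 0 := by rw [← e2, h2, mul_zero]
    rw [← mul_assoc, ps_sqR, one_mul] at this
    rw [this]; rfl

theorem gg_hasFDerivAt (k l m : ℤ) (p : E3) : HasFDerivAt (gg k l m) (LL k) p := by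
  have : gg k l m = fun p => LL k p + (!₂[(k:ℝ), (l:ℝ), (m:ℝ)] : E3) := by
    funext q
    apply ext3
    · rfl
    · rfl
    · rfl
  rw [this]
  exact (LL k).hasFDerivAt.add_const _

theorem ep_symm_self (y : MM) : (ep (rep y)).symm y = rep y := by
  have h := (ep (rep y)).left_inv (show rep y ∈ (ep (rep y)).source by
    rw [ep_source]; exact Metric.mem_ball_self (by norm_num))
  rw [ep_coe, pr_rep] at h
  exact h

theorem contDiffAt_rep {f : MM → V9} (hf : ContMDiff (𝓡 3) 𝓘(ℝ, V9) ∞ f) (y : MM) :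
    ContDiffAt ℝ ∞ (f ∘ pr) (rep y) := by
  have h := (contMDiffAt_iff.mp (hf y)).2
  have hx : (extChartAt (𝓡 3) y) y = rep y := ep_symm_self y
  rw [hx] at h
  have hr : Set.range (𝓡 3) = Set.univ := by simp
  rw [hr, contDiffWithinAt_univ] at h
  exact h

theorem contDiff_pr {f : MM → V9} (hf : ContMDiff (𝓡 3) 𝓘(ℝ, V9) ∞ f) :
    ContDiff ℝ ∞ (f ∘ pr) := by
  rw [contDiff_iff_contDiffAt]
  intro p
  obtain ⟨k, l, m, h⟩ := pr_eq.mp (pr_rep (pr p)).symm
  have h1 := contDiffAt_rep hf (pr p)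
  rw [h] at h1
  have h2 := h1.comp p (gg_contDiff k l m).contDiffAt
  have h3 : (f ∘ pr) ∘ gg k l m = f ∘ pr := by
    funext q; simp only [Function.comp_apply, pr_gg]
  rwa [h3] at h2

theorem mfderiv_eq {f : MM → V9} (hf : ContMDiff (𝓡 3) 𝓘(ℝ, V9) ∞ f) (y : MM) :
    mfderiv (𝓡 3) 𝓘(ℝ, V9) f y = fderiv ℝ (f ∘ pr) (rep y) := by
  have hd : MDifferentiableAt (𝓡 3) 𝓘(ℝ, V9) f y := (hf y).mdifferentiableAt (by simp)
  rw [hd.mfderiv]
  have hx : (extChartAt (𝓡 3) y) y = rep y := ep_symm_self y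
  rw [hx]
  have hr : Set.range (𝓡 3) = Set.univ := by simp
  rw [hr, fderivWithin_univ]
  rfl

theorem no_embedding (f : MM → V9) (hf : ContMDiff (𝓡 3) 𝓘(ℝ, V9) ∞ f)
    (hTS : ∀ x y : MM, x ≠ y →
        ∀ (a : TangentSpace (𝓡 3) x) (b : TangentSpace (𝓡 3) y) (t : ℝ),
          t • (f x - f y)
            + id (α := V9) (mfderiv (𝓡 3) 𝓘(ℝ, V9) f x a)
            = id (α := V9) (mfderiv (𝓡 3) 𝓘(ℝ, V9) f y b) →
          t = 0 ∧ a = 0 ∧ b = 0) : False := by
  set F : E3 → V9 := f ∘ pr with hF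
  have hFc : ContDiff ℝ ∞ F := contDiff_pr hf
  have hFd : Differentiable ℝ F := hFc.differentiable (by simp)
  have hinv : ∀ k l m p, F (gg k l m p) = F p := by
    intro k l m p; simp only [hF, Function.comp_apply, pr_gg]
  -- derivative at the representative
  have hder : ∀ p : E3, ∃ L : E3 → E3, (∀ a, L a = 0 → a = 0) ∧
      ∀ a : E3, id (α := V9) (mfderiv (𝓡 3) 𝓘(ℝ, V9) f (pr p) (L a)) = fderiv ℝ F p a := by
    intro p
    obtain ⟨k, l, m, h⟩ := pr_eq.mp (pr_rep (pr p)).symm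
    refine ⟨LL k, LL_inj k, ?_⟩
    intro a
    have h1 := mfderiv_eq hf (pr p)
    have h2 : HasFDerivAt (F ∘ gg k l m) ((fderiv ℝ F (gg k l m p)).comp (LL k)) p :=
      (hFd (gg k l m p)).hasFDerivAt.comp p (gg_hasFDerivAt k l m p)
    have h3 : F ∘ gg k l m = F := funext (hinv k l m)
    rw [h3] at h2
    rw [h1, h, h2.fderiv]
    rfl
  refine no_TS F (hFc.of_le (by simp)) ?_ ?_
  · intro p
    have : gl p = gg 1 0 0 p := by
      rw [gl_apply]
      apply ext3
      · rw [gg_0]; simp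
      · rw [gg_1]; simp
      · rw [gg_2]; simp [ps]
    rw [this, hinv]
  · intro p q hpq a b t h
    obtain ⟨L, hL, hL2⟩ := hder p
    obtain ⟨L', hL', hL2'⟩ := hder q
    have hne : pr p ≠ pr q := by
      intro he
      have := pr_inj he (by rw [hpq]; norm_num)
      rw [this, dist_self] at hpq
      norm_num at hpq
    have key := hTS (pr p) (pr q) hne (L a) (L' b) t (by
      rw [hL2, hL2']; exact h)
    exact ⟨key.1, hL a key.2.1, hL' b key.2.2⟩

end Pool.Agent.H73W
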