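import Pool.Agent.H73W.Topo

set_option autoImplicit false

namespace Pool.Agent.H73W

open InnerProductSpace
open scoped RealInnerProductSpace

theorem gs_def (f : Fin 7 → V9) (n : Fin 7) : gramSchmidt ℝ f n = f n -
    ∑ i ∈ Finset.Iio n, (⟪gramSchmidt ℝ f i, f n⟫ / ‖gramSchmidt ℝ f i‖ ^ 2) •
      gramSchmidt ℝ f i := by
  have := gramSchmidt_def'' ℝ f n
  rw [eq_sub_iff_add_eq]
  exact this.symm

theorem gs_sign (f : Fin 7 → V9) (s : Fin 7 → ℝ) (hs : ∀ i, s i * s i = 1) (n : Fin 7) :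
    gramSchmidt ℝ (fun i => s i • f i) n = s n • gramSchmidt ℝ f n := by
  induction n using WellFoundedLT.induction with
  | ind n ih =>
    rw [gs_def, gs_def f n, smul_sub, Finset.smul_sum]
    congr 1
    apply Finset.sum_congr rfl
    intro i hi
    rw [ih i (Finset.mem_Iio.mp hi), norm_smul, mul_pow, Real.norm_eq_abs, sq_abs, inner_smul_left,
      inner_smul_right, smul_smul, smul_smul]
    have h1 : s i ^ 2 = 1 := by rw [sq, hs]
    rw [h1, one_mul]
    congr 1
    simp only [RCLike.conj_to_real]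
    have h2 := hs i
    calc s i * (s n * ⟪gramSchmidt ℝ f i, f n⟫) / ‖gramSchmidt ℝ f i‖ ^ 2 * s i
        = (s i * s i) * (s n * (⟪gramSchmidt ℝ f i, f n⟫ / ‖gramSchmidt ℝ f i‖ ^ 2)) := by ring
      _ = _ := by rw [h2, one_mul]

theorem gsn_sign (f : Fin 7 → V9) (s : Fin 7 → ℝ) (hs : ∀ i, s i * s i = 1) (n : Fin 7) :
    gramSchmidtNormed ℝ (fun i => s i • f i) n = s n • gramSchmidtNormed ℝ f n := by
  unfold gramSchmidtNormed
  rw [gs_sign f s hs, norm_smul, smul_smul, smul_smul]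
  have h1 : ‖s n‖ = 1 := by
    have h2 : ‖s n‖ * ‖s n‖ = 1 := by rw [← norm_mul, hs, norm_one]
    nlinarith [norm_nonneg (s n)]
  rw [h1, one_mul, mul_comm]

theorem gs_cont {X : Type*} [TopologicalSpace X] {K : Set X} (f : X → Fin 7 → V9)
    (hf : ContinuousOn f K) (hli : ∀ x ∈ K, LinearIndependent ℝ (f x)) (n : Fin 7) :
    ContinuousOn (fun x => gramSchmidt ℝ (f x) n) K := by
  induction n using WellFoundedLT.induction with
  | ind n ih =>
    have e : (fun x => gramSchmidt ℝ (f x) n) = fun x => f x n -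
      ∑ i ∈ Finset.Iio n, (⟪gramSchmidt ℝ (f x) i, f x n⟫ / ‖gramSchmidt ℝ (f x) i‖ ^ 2) •
      gramSchmidt ℝ (f x) i := by
      funext x; exact gs_def _ _
    rw [e]
    have hfn := (continuousOn_pi.mp hf) n
    apply hfn.sub
    apply continuousOn_finsetSum
    intro i hi
    have hi' := ih i (Finset.mem_Iio.mp hi)
    have hc : ContinuousOn (fun x => ⟪gramSchmidt ℝ (f x) i, f x n⟫ /
        ‖gramSchmidt ℝ (f x) i‖ ^ 2) K := by
      apply ContinuousOn.div
      · exact ContinuousOn.inner (𝕜 := ℝ) hi' hfn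
      · exact hi'.norm.pow 2
      · intro x hx
        have := gramSchmidt_ne_zero (𝕜 := ℝ) i (hli x hx)
        positivity
    exact hc.smul hi'

theorem gsn_cont {X : Type*} [TopologicalSpace X] {K : Set X} (f : X → Fin 7 → V9)
    (hf : ContinuousOn f K) (hli : ∀ x ∈ K, LinearIndependent ℝ (f x)) :
    ContinuousOn (fun x => gramSchmidtNormed ℝ (f x)) K := by
  rw [continuousOn_pi]
  intro n
  unfold gramSchmidtNormed
  have h := gs_cont f hf hli n
  have hc : ContinuousOn (fun x => (‖gramSchmidt ℝ (f x) n‖ : ℝ)⁻¹) K := by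
    apply ContinuousOn.inv₀
    · exact (h.norm)
    · intro x hx
      have := gramSchmidt_ne_zero (𝕜 := ℝ) n (hli x hx)
      simpa using this
  exact hc.smul h

/-- The topological obstruction, for linearly independent frames. -/
theorem no_li_frames (f : ℝ × ℂ → Fin 7 → V9)
    (hf : ContinuousOn f (Set.Icc (0:ℝ) 1 ×ˢ Metric.closedBall (0:ℂ) 1))
    (ho : ∀ x ∈ Set.Icc (0:ℝ) 1 ×ˢ Metric.closedBall (0:ℂ) 1, LinearIndependent ℝ (f x))
    (h1 : ∀ θ ∈ Set.Icc (0:ℝ) 1, ∀ v : ℂ, ‖v‖ = 1 → ∀ i, f (θ, -v) i = eps i • f (θ, v) i)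
    (h2 : ∀ v : ℂ, ‖v‖ ≤ 1 → ∀ i, f (1, -v) i = (eps i * del i) • f (0, v) i) : False := by
  have heps : ∀ i, eps i * eps i = 1 := by
    intro i; fin_cases i <;> simp [eps]
  have hdel : ∀ i, del i * del i = 1 := by
    intro i; fin_cases i <;> simp [del]
  refine no_frames (fun x => gramSchmidtNormed ℝ (f x)) (gsn_cont f hf ho)
    (fun x hx => gramSchmidtNormed_orthonormal (ho x hx)) ?_ ?_
  · intro θ hθ v hv i
    have : f (θ, -v) = fun i => eps i • f (θ, v) i := funext (h1 θ hθ v hv)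
    simp only [this]
    exact gsn_sign _ _ heps i
  · intro v hv i
    have : f (1, -v) = fun i => (eps i * del i) • f (0, v) i := funext (h2 v hv)
    simp only [this]
    refine gsn_sign _ (fun i => eps i * del i) ?_ i
    intro i
    calc (eps i * del i) * (eps i * del i) = (eps i * eps i) * (del i * del i) := by ring
      _ = 1 := by rw [heps, hdel, one_mul]

abbrev E3 := EuclideanSpace ℝ (Fin 3)

/-- linear part of the glide reflection -/
noncomputable def RR : E3 →L[ℝ] E3 := LinearMap.toContinuousLinearMap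
  { toFun := fun p => !₂[p 0, p 1, - p 2]
    map_add' := by
      intro p q; ext i; fin_cases i <;> simp; ring
    map_smul' := by
      intro c p; ext i; fin_cases i <;> simp }

/-- the glide reflection -/
noncomputable def gl (p : E3) : E3 := RR p + EuclideanSpace.single 0 1

theorem RR_apply (p : E3) : RR p = !₂[p 0, p 1, - p 2] := rfl

theorem gl_apply (p : E3) : gl p = !₂[p 0 + 1, p 1, - p 2] := by
  unfold gl; rw [RR_apply]; ext i; fin_cases i <;> simp

/-- the first moving point -/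
noncomputable def pP (x : ℝ × ℂ) : E3 :=
  !₂[x.1 + x.2.re / 8, x.2.im / 8, Real.sqrt (1 - ‖x.2‖ ^ 2) / 8]

/-- the second moving point -/
noncomputable def pQ (x : ℝ × ℂ) : E3 :=
  !₂[x.1 - x.2.re / 8, - x.2.im / 8, - Real.sqrt (1 - ‖x.2‖ ^ 2) / 8]

theorem pP_cont : Continuous pP := by
  unfold pP
  refine (PiLp.continuous_toLp 2 _).comp ?_
  refine continuous_pi ?_
  intro i
  fin_cases i <;> simp <;> fun_prop

theorem pQ_cont : Continuous pQ := by
  unfold pQ
  refine (PiLp.continuous_toLp 2 _).comp ?_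
  refine continuous_pi ?_
  intro i
  fin_cases i <;> simp <;> fun_prop

theorem dist_PQ (x : ℝ × ℂ) (hx : ‖x.2‖ ≤ 1) : dist (pP x) (pQ x) = 1 / 4 := by
  rw [EuclideanSpace.dist_eq]
  have h1 : Real.sqrt (1 - ‖x.2‖ ^ 2) ^ 2 = 1 - ‖x.2‖ ^ 2 := by
    apply Real.sq_sqrt
    nlinarith [norm_nonneg x.2]
  have h2 : ‖x.2‖ ^ 2 = x.2.re ^ 2 + x.2.im ^ 2 := by
    rw [← Complex.normSq_eq_norm_sq, Complex.normSq_apply]; ring
  have h3 : ∑ i, dist (pP x i) (pQ x i) ^ 2 = (1/4) ^ 2 := by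
    simp only [Fin.sum_univ_three, pP, pQ, Real.dist_eq, sq_abs]
    simp
    rw [h2] at h1
    rw [h2]
    nlinarith [h1]
  rw [h3, Real.sqrt_sq (by norm_num)]

theorem no_TS (F : E3 → V9) (hF : ContDiff ℝ 1 F) (hg : ∀ p, F (gl p) = F p)
    (hTS : ∀ p q : E3, dist p q = 1 / 4 → ∀ (a b : E3) (t : ℝ),
      t • (F p - F q) + fderiv ℝ F p a = fderiv ℝ F q b → t = 0 ∧ a = 0 ∧ b = 0) : False := by
  have hdiff : Differentiable ℝ F := hF.differentiable one_ne_zero
  have hDc : Continuous (fderiv ℝ F) := hF.continuous_fderiv one_ne_zero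
  -- derivative relation
  have hD : ∀ p v, fderiv ℝ F (gl p) (RR v) = fderiv ℝ F p v := by
    intro p v
    have h1 : HasFDerivAt gl RR p := by
      unfold gl
      exact RR.hasFDerivAt.add_const _
    have h2 : HasFDerivAt (F ∘ gl) ((fderiv ℝ F (gl p)).comp RR) p :=
      (hdiff (gl p)).hasFDerivAt.comp p h1
    have h3 : F ∘ gl = F := funext hg
    rw [h3] at h2
    have h4 := h2.fderiv
    rw [h4]; rfl
  let e : Fin 3 → E3 := fun i => EuclideanSpace.single i 1
  have hR0 : RR (e 0) = e 0 := by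
    rw [RR_apply]; ext i; fin_cases i <;> simp [e]
  have hR1 : RR (e 1) = e 1 := by
    rw [RR_apply]; ext i; fin_cases i <;> simp [e]
  have hR2 : RR (e 2) = - e 2 := by
    rw [RR_apply]; ext i; fin_cases i <;> simp [e]
  have hD0 : ∀ p, fderiv ℝ F (gl p) (e 0) = fderiv ℝ F p (e 0) := by
    intro p; rw [← hD p, hR0]
  have hD1 : ∀ p, fderiv ℝ F (gl p) (e 1) = fderiv ℝ F p (e 1) := by
    intro p; rw [← hD p, hR1]
  have hD2 : ∀ p, fderiv ℝ F (gl p) (e 2) = - fderiv ℝ F p (e 2) := by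
    intro p; rw [← hD p, hR2, map_neg, neg_neg]
  let A : Fin 3 → ℝ × ℂ → V9 := fun i x => fderiv ℝ F (pP x) (e i)
  let B : Fin 3 → ℝ × ℂ → V9 := fun i x => fderiv ℝ F (pQ x) (e i)
  let d : ℝ × ℂ → V9 := fun x => F (pP x) - F (pQ x)
  let f : ℝ × ℂ → Fin 7 → V9 := fun x =>
    ![A 0 x + B 0 x, A 1 x + B 1 x, A 2 x + B 2 x, A 0 x - B 0 x, A 1 x - B 1 x, A 2 x - B 2 x, d x]
  have hAc : ∀ i, Continuous (A i) := by
    intro i
    exact (hDc.comp pP_cont).clm_apply continuous_const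
  have hBc : ∀ i, Continuous (B i) := by
    intro i
    exact (hDc.comp pQ_cont).clm_apply continuous_const
  have hdc : Continuous d := (hF.continuous.comp pP_cont).sub (hF.continuous.comp pQ_cont)
  refine no_li_frames f ?_ ?_ ?_ ?_
  · apply Continuous.continuousOn
    refine continuous_pi ?_
    intro i
    fin_cases i
    · exact (hAc 0).add (hBc 0)
    · exact (hAc 1).add (hBc 1)
    · exact (hAc 2).add (hBc 2)
    · exact (hAc 0).sub (hBc 0)
    · exact (hAc 1).sub (hBc 1)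
    · exact (hAc 2).sub (hBc 2)
    · exact hdc
  · rintro x ⟨_, hx2⟩
    rw [mem_closedBall_zero_iff] at hx2
    rw [Fintype.linearIndependent_iff]
    intro c hc
    rw [Fin.sum_univ_seven] at hc
    let a : E3 := (c 0 + c 3) • e 0 + (c 1 + c 4) • e 1 + (c 2 + c 5) • e 2
    let b : E3 := (c 3 - c 0) • e 0 + (c 4 - c 1) • e 1 + (c 5 - c 2) • e 2
    have key := hTS (pP x) (pQ x) (dist_PQ x hx2) a b (c 6) (by
      have ea : fderiv ℝ F (pP x) a = (c 0 + c 3) • A 0 x + (c 1 + c 4) • A 1 x +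
          (c 2 + c 5) • A 2 x := by simp only [a, A, map_add, map_smul]
      have eb : fderiv ℝ F (pQ x) b = (c 3 - c 0) • B 0 x + (c 4 - c 1) • B 1 x +
          (c 5 - c 2) • B 2 x := by simp only [b, B, map_add, map_smul]
      rw [ea, eb, ← sub_eq_zero, ← hc]
      show _ = c 0 • (A 0 x + B 0 x) + c 1 • (A 1 x + B 1 x) + c 2 • (A 2 x + B 2 x) +
        c 3 • (A 0 x - B 0 x) + c 4 • (A 1 x - B 1 x) + c 5 • (A 2 x - B 2 x) + c 6 • d x
      simp only [d]
      module)
    obtain ⟨h6, ha, hb⟩ := key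
    have ha0 := congrArg (fun p : E3 => p 0) ha
    have ha1 := congrArg (fun p : E3 => p 1) ha
    have ha2 := congrArg (fun p : E3 => p 2) ha
    have hb0 := congrArg (fun p : E3 => p 0) hb
    have hb1 := congrArg (fun p : E3 => p 1) hb
    have hb2 := congrArg (fun p : E3 => p 2) hb
    simp [a, b, e] at ha0 ha1 ha2 hb0 hb1 hb2
    intro i
    fin_cases i
    · show c 0 = 0; linarith
    · show c 1 = 0; linarith
    · show c 2 = 0; linarith
    · show c 3 = 0; linarith
    · show c 4 = 0; linarith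
    · show c 5 = 0; linarith
    · exact h6
  · intro θ _ v hv i
    have hP : pP (θ, -v) = pQ (θ, v) := by
      unfold pP pQ
      ext j; fin_cases j <;> simp [hv] <;> ring
    have hQ : pQ (θ, -v) = pP (θ, v) := by
      unfold pP pQ
      ext j; fin_cases j <;> simp [hv] <;> ring
    have hA : ∀ j, A j (θ, -v) = B j (θ, v) := by
      intro j; simp only [A, B, hP]
    have hB : ∀ j, B j (θ, -v) = A j (θ, v) := by
      intro j; simp only [A, B, hQ]
    have hd : d (θ, -v) = - d (θ, v) := by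
      simp only [d, hP, hQ]; abel
    fin_cases i
    · show A 0 (θ, -v) + B 0 (θ, -v) = (1:ℝ) • (A 0 (θ, v) + B 0 (θ, v))
      rw [hA, hB, one_smul, add_comm]
    · show A 1 (θ, -v) + B 1 (θ, -v) = (1:ℝ) • (A 1 (θ, v) + B 1 (θ, v))
      rw [hA, hB, one_smul, add_comm]
    · show A 2 (θ, -v) + B 2 (θ, -v) = (1:ℝ) • (A 2 (θ, v) + B 2 (θ, v))
      rw [hA, hB, one_smul, add_comm]
    · show A 0 (θ, -v) - B 0 (θ, -v) = (-1:ℝ) • (A 0 (θ, v) - B 0 (θ, v))
      rw [hA, hB, neg_one_smul, neg_sub]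
    · show A 1 (θ, -v) - B 1 (θ, -v) = (-1:ℝ) • (A 1 (θ, v) - B 1 (θ, v))
      rw [hA, hB, neg_one_smul, neg_sub]
    · show A 2 (θ, -v) - B 2 (θ, -v) = (-1:ℝ) • (A 2 (θ, v) - B 2 (θ, v))
      rw [hA, hB, neg_one_smul, neg_sub]
    · show d (θ, -v) = (-1:ℝ) • d (θ, v)
      rw [hd, neg_one_smul]
  · intro v _ i
    have hP : pP (1, -v) = gl (pQ (0, v)) := by
      rw [gl_apply]
      unfold pP pQ
      ext j; fin_cases j <;> simp <;> ring
    have hQ : pQ (1, -v) = gl (pP (0, v)) := by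
      rw [gl_apply]
      unfold pP pQ
      ext j; fin_cases j <;> simp <;> ring
    have hA0 : A 0 (1, -v) = B 0 (0, v) := by simp only [A, B, hP, hD0]
    have hA1 : A 1 (1, -v) = B 1 (0, v) := by simp only [A, B, hP, hD1]
    have hA2 : A 2 (1, -v) = - B 2 (0, v) := by simp only [A, B, hP, hD2]
    have hB0 : B 0 (1, -v) = A 0 (0, v) := by simp only [A, B, hQ, hD0]
    have hB1 : B 1 (1, -v) = A 1 (0, v) := by simp only [A, B, hQ, hD1]
    have hB2 : B 2 (1, -v) = - A 2 (0, v) := by simp only [A, B, hQ, hD2]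
    have hd : d (1, -v) = - d (0, v) := by
      simp only [d, hP, hQ, hg]; abel
    fin_cases i
    · show A 0 (1, -v) + B 0 (1, -v) = ((1:ℝ) * 1) • (A 0 (0, v) + B 0 (0, v))
      rw [hA0, hB0]; module
    · show A 1 (1, -v) + B 1 (1, -v) = ((1:ℝ) * 1) • (A 1 (0, v) + B 1 (0, v))
      rw [hA1, hB1]; module
    · show A 2 (1, -v) + B 2 (1, -v) = ((1:ℝ) * (-1)) • (A 2 (0, v) + B 2 (0, v))
      rw [hA2, hB2]; module
    · show A 0 (1, -v) - B 0 (1, -v) = ((-1:ℝ) * 1) • (A 0 (0, v) - B 0 (0, v))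
      rw [hA0, hB0]; module
    · show A 1 (1, -v) - B 1 (1, -v) = ((-1:ℝ) * 1) • (A 1 (0, v) - B 1 (0, v))
      rw [hA1, hB1]; module
    · show A 2 (1, -v) - B 2 (1, -v) = ((-1:ℝ) * (-1)) • (A 2 (0, v) - B 2 (0, v))
      rw [hA2, hB2]; module
    · show d (1, -v) = ((-1:ℝ) * 1) • d (0, v)
      rw [hd]; module

end Pool.Agent.H73W
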