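import Mathlib

set_option autoImplicit false
set_option maxRecDepth 100000

namespace Pool.Agent.H73W

/-- shift table of the nine real 16×16 gamma matrices -/
def sh : Fin 9 → Fin 16 → Fin 16 := ![
  ![0, 1, 2, 3, 4, 5, 6, 7, 8, 9, 10, 11, 12, 13, 14, 15],
  ![1, 0, 3, 2, 5, 4, 7, 6, 9, 8, 11, 10, 13, 12, 15, 14],
  ![3, 2, 1, 0, 7, 6, 5, 4, 11, 10, 9, 8, 15, 14, 13, 12],
  ![5, 4, 7, 6, 1, 0, 3, 2, 13, 12, 15, 14, 9, 8, 11, 10],
  ![7, 6, 5, 4, 3, 2, 1, 0, 15, 14, 13, 12, 11, 10, 9, 8],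
  ![9, 8, 11, 10, 13, 12, 15, 14, 1, 0, 3, 2, 5, 4, 7, 6],
  ![11, 10, 9, 8, 15, 14, 13, 12, 3, 2, 1, 0, 7, 6, 5, 4],
  ![13, 12, 15, 14, 9, 8, 11, 10, 5, 4, 7, 6, 1, 0, 3, 2],
  ![15, 14, 13, 12, 11, 10, 9, 8, 7, 6, 5, 4, 3, 2, 1, 0]]

/-- sign table of the nine real 16×16 gamma matrices -/
def sg : Fin 9 → Fin 16 → ℤ := ![
  ![1, -1, 1, -1, 1, -1, 1, -1, 1, -1, 1, -1, 1, -1, 1, -1],
  ![1, 1, 1, 1, 1, 1, 1, 1, 1, 1, 1, 1, 1, 1, 1, 1],
  ![1, -1, -1, 1, 1, -1, -1, 1, 1, -1, -1, 1, 1, -1, -1, 1],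
  ![1, -1, -1, 1, -1, 1, 1, -1, 1, -1, -1, 1, -1, 1, 1, -1],
  ![1, -1, 1, -1, -1, 1, -1, 1, -1, 1, -1, 1, 1, -1, 1, -1],
  ![1, -1, -1, 1, -1, 1, 1, -1, -1, 1, 1, -1, 1, -1, -1, 1],
  ![1, -1, 1, -1, 1, -1, 1, -1, -1, 1, -1, 1, -1, 1, -1, 1],
  ![1, -1, -1, 1, 1, -1, -1, 1, -1, 1, 1, -1, -1, 1, 1, -1],
  ![1, -1, 1, -1, -1, 1, -1, 1, 1, -1, 1, -1, -1, 1, -1, 1]]

abbrev Alg := Matrix (Fin 16) (Fin 16) ℝ

/-- the k-th gamma matrix -/
def gm (k : Fin 9) : Alg := Matrix.of fun s t => if t = sh k s then (sg k s : ℝ) else 0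

theorem sh_sh : ∀ k s, sh k (sh k s) = s := by decide
theorem sh_comm : ∀ k l s, sh k (sh l s) = sh l (sh k s) := by decide
theorem sg_sq : ∀ k s, sg k s * sg k (sh k s) = 1 := by decide
theorem sg_anti : ∀ k l, k ≠ l → ∀ s, sg k s * sg l (sh k s) = - (sg l s * sg k (sh l s)) := by decide

theorem gm_mul_apply (k : Fin 9) (X : Alg) (s t : Fin 16) :
    (gm k * X) s t = sg k s * X (sh k s) t := by
  rw [Matrix.mul_apply]
  simp [gm, Matrix.of_apply]

theorem mul_gm_apply (k : Fin 9) (X : Alg) (s t : Fin 16) :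
    (X * gm k) s t = X s (sh k t) * sg k (sh k t) := by
  rw [Matrix.mul_apply]
  have h : ∀ r, t = sh k r ↔ r = sh k t := by
    intro r
    constructor
    · intro h; rw [h, sh_sh]
    · intro h; rw [h, sh_sh]
  simp [gm, Matrix.of_apply, h]

theorem gm_sq (k : Fin 9) : gm k * gm k = 1 := by
  ext s t
  rw [gm_mul_apply]
  simp only [gm, Matrix.of_apply, sh_sh, Matrix.one_apply]
  have := sg_sq k s
  by_cases h : t = s
  · subst h
    simp only [if_true]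
    exact_mod_cast this
  · rw [if_neg h, if_neg (fun h' => h h'.symm)]; simp

theorem gm_anti (k l : Fin 9) (hkl : k ≠ l) : gm k * gm l = - (gm l * gm k) := by
  ext s t
  rw [Matrix.neg_apply, gm_mul_apply, gm_mul_apply]
  simp only [gm, Matrix.of_apply]
  have h1 := sg_anti k l hkl s
  rw [sh_comm l k s]
  by_cases h : t = sh k (sh l s)
  · simp only [h, if_true]
    exact_mod_cast h1
  · simp [h]

/-- commutation relation in coordinates -/
theorem comm_coord {X : Alg} {k : Fin 9} (h : gm k * X = X * gm k) (s t : Fin 16) :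
    X (sh k s) (sh k t) = sg k s * sg k t * X s t := by
  have h1 := congrFun (congrFun h s) (sh k t)
  rw [gm_mul_apply, mul_gm_apply, sh_sh] at h1
  have hs : (sg k s : ℝ) * sg k s = 1 := by
    have : ∀ k s, sg k s * sg k s = 1 := by decide
    exact_mod_cast this k s
  calc X (sh k s) (sh k t) = (sg k s * sg k s) * X (sh k s) (sh k t) := by rw [hs, one_mul]
    _ = sg k s * (sg k s * X (sh k s) (sh k t)) := by ring
    _ = sg k s * (X s t * sg k t) := by rw [h1]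
    _ = _ := by ring

/-- shift of a word -/
def shw : List (Fin 9) → Fin 16 → Fin 16
  | [], s => s
  | k :: w, s => sh k (shw w s)

def sgw : List (Fin 9) → Fin 16 → ℤ
  | [], _ => 1
  | k :: w, s => sg k (shw w s) * sgw w s

theorem comm_word {X : Alg} (h : ∀ k, gm k * X = X * gm k) (w : List (Fin 9)) (s t : Fin 16) :
    X (shw w s) (shw w t) = sgw w s * sgw w t * X s t := by
  induction w with
  | nil => simp [shw, sgw]
  | cons k w ih =>
    simp only [shw, sgw]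
    rw [comm_coord (h k), ih]
    push_cast
    ring

theorem off_word : ∀ s t : Fin 16, s ≠ t → ∃ i : Fin 4,
    shw ((![[0],[2,4,6,8],[3,4,7,8],[5,6,7,8]] : Fin 4 → List (Fin 9)) i) s = s ∧
    shw ((![[0],[2,4,6,8],[3,4,7,8],[5,6,7,8]] : Fin 4 → List (Fin 9)) i) t = t ∧
    sgw ((![[0],[2,4,6,8],[3,4,7,8],[5,6,7,8]] : Fin 4 → List (Fin 9)) i) s *
    sgw ((![[0],[2,4,6,8],[3,4,7,8],[5,6,7,8]] : Fin 4 → List (Fin 9)) i) t = -1 := by
  decide

theorem diag_word : ∀ s : Fin 16, ∃ k l : Fin 9, shw [k, l] 0 = s := by decide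

/-- the commutant of the nine gamma matrices consists of scalars -/
theorem commutant_scalar {X : Alg} (h : ∀ k, gm k * X = X * gm k) : X = (X 0 0) • (1 : Alg) := by
  ext s t
  rw [Matrix.smul_apply, Matrix.one_apply]
  by_cases hst : s = t
  · subst hst
    rw [if_pos rfl, smul_eq_mul, mul_one]
    obtain ⟨k, l, hkl⟩ := diag_word s
    have := comm_word h [k, l] 0 0
    rw [hkl] at this
    rw [this]
    have hs : (sgw [k, l] 0 : ℝ) * sgw [k, l] 0 = 1 := by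
      have : ∀ k l : Fin 9, sgw [k, l] 0 * sgw [k, l] 0 = 1 := by decide
      exact_mod_cast this k l
    rw [hs, one_mul]
  · rw [if_neg hst, smul_zero]
    obtain ⟨i, h1, h2, h3⟩ := off_word s t hst
    have := comm_word h ((![[0],[2,4,6,8],[3,4,7,8],[5,6,7,8]] : Fin 4 → List (Fin 9)) i) s t
    rw [h1, h2] at this
    have h3' : (sgw ((![[0],[2,4,6,8],[3,4,7,8],[5,6,7,8]] : Fin 4 → List (Fin 9)) i) s : ℝ) *
      sgw ((![[0],[2,4,6,8],[3,4,7,8],[5,6,7,8]] : Fin 4 → List (Fin 9)) i) t = -1 := by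
      exact_mod_cast h3
    rw [h3'] at this
    linarith

end Pool.Agent.H73W
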