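import Pool.Agent.H73W.Frames

set_option autoImplicit false

namespace Pool.Agent.H73W

open scoped Manifold ContDiff

/-- parity sign of an integer -/
def ps (k : ℤ) : ℤ := if Even k then 1 else -1

theorem ps_zero : ps 0 = 1 := by simp [ps]

theorem ps_add (k l : ℤ) : ps (k + l) = ps k * ps l := by
  unfold ps
  by_cases hk : Even k <;> by_cases hl : Even l <;> simp [hk, hl, Int.even_add]

theorem ps_neg (k : ℤ) : ps (-k) = ps k := by simp [ps]

theorem ps_sq (k : ℤ) : ps k * ps k = 1 := by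
  unfold ps; split_ifs <;> norm_num

theorem ps_sqR (k : ℤ) : (ps k : ℝ) * ps k = 1 := by exact_mod_cast ps_sq k

theorem cos_ps (k : ℤ) : Real.cos (k * Real.pi) = ps k := by
  unfold ps
  split_ifs with h
  · obtain ⟨m, rfl⟩ := h
    have : ((m + m : ℤ) : ℝ) * Real.pi = m * (2 * Real.pi) := by push_cast; ring
    rw [this, Real.cos_int_mul_two_pi]; simp
  · rw [Int.not_even_iff_odd] at h
    obtain ⟨m, rfl⟩ := h
    have : ((2 * m + 1 : ℤ) : ℝ) * Real.pi = m * (2 * Real.pi) + Real.pi := by push_cast; ring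
    rw [this, Real.cos_add_pi, Real.cos_int_mul_two_pi]; simp

/-- the group elements -/
noncomputable def gg (k l m : ℤ) (p : E3) : E3 := !₂[p 0 + k, p 1 + l, ps k * p 2 + m]

theorem gg_0 (k l m : ℤ) (p : E3) : gg k l m p 0 = p 0 + k := rfl
theorem gg_1 (k l m : ℤ) (p : E3) : gg k l m p 1 = p 1 + l := rfl
theorem gg_2 (k l m : ℤ) (p : E3) : gg k l m p 2 = ps k * p 2 + m := rfl

theorem ext3 {p q : E3} (h0 : p 0 = q 0) (h1 : p 1 = q 1) (h2 : p 2 = q 2) : p = q := by
  ext i; fin_cases i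
  · exact h0
  · exact h1
  · exact h2

theorem gg_zero (p : E3) : gg 0 0 0 p = p := by
  apply ext3
  · rw [gg_0]; simp
  · rw [gg_1]; simp
  · rw [gg_2, ps_zero]; simp

theorem gg_comp (k l m k' l' m' : ℤ) (p : E3) :
    gg k' l' m' (gg k l m p) = gg (k + k') (l + l') (ps k' * m + m') p := by
  apply ext3
  · rw [gg_0, gg_0, gg_0]; push_cast; ring
  · rw [gg_1, gg_1, gg_1]; push_cast; ring
  · rw [gg_2, gg_2, gg_2, ps_add]; push_cast; ring

/-- orbit equivalence relation -/
instance glSetoid : Setoid E3 where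
  r p q := ∃ k l m : ℤ, q = gg k l m p
  iseqv := {
    refl := fun p => ⟨0, 0, 0, (gg_zero p).symm⟩
    symm := by
      rintro p q ⟨k, l, m, rfl⟩
      refine ⟨-k, -l, -(ps k * m), ?_⟩
      rw [gg_comp, ps_neg, add_neg_cancel, add_neg_cancel, add_neg_cancel, gg_zero]
    trans := by
      rintro p q r ⟨k, l, m, rfl⟩ ⟨k', l', m', rfl⟩
      exact ⟨_, _, _, gg_comp _ _ _ _ _ _ _⟩ }

/-- the compact flat nonorientable three-manifold -/
def MM : Type := Quotient glSetoid

instance : TopologicalSpace MM := inferInstanceAs (TopologicalSpace (Quotient glSetoid))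

/-- quotient map -/
def pr (p : E3) : MM := Quotient.mk glSetoid p

/-- representative -/
noncomputable def rep (y : MM) : E3 := Quotient.out y

theorem pr_rep (y : MM) : pr (rep y) = y := Quotient.out_eq y

theorem pr_eq {p q : E3} : pr p = pr q ↔ ∃ k l m : ℤ, q = gg k l m p := Quotient.eq (r := glSetoid)

theorem pr_gg (k l m : ℤ) (p : E3) : pr (gg k l m p) = pr p := (pr_eq.mpr ⟨k, l, m, rfl⟩).symm

theorem pr_surj : Function.Surjective pr := fun y => ⟨rep y, pr_rep y⟩

theorem pr_cont : Continuous pr := continuous_quotient_mk'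

theorem gg_contDiff (k l m : ℤ) : ContDiff ℝ ∞ (gg k l m) := by
  rw [contDiff_euclidean]
  intro i
  fin_cases i
  · show ContDiff ℝ ∞ (fun p : E3 => p 0 + (k:ℝ)); fun_prop
  · show ContDiff ℝ ∞ (fun p : E3 => p 1 + (l:ℝ)); fun_prop
  · show ContDiff ℝ ∞ (fun p : E3 => (ps k : ℝ) * p 2 + (m:ℝ)); fun_prop

theorem gg_cont (k l m : ℤ) : Continuous (gg k l m) := (gg_contDiff k l m).continuous

theorem pr_open : IsOpenMap pr := by
  intro U hU
  have hq : Topology.IsQuotientMap pr := isQuotientMap_quotient_mk'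
  rw [← hq.isOpen_preimage]
  have : pr ⁻¹' (pr '' U) = ⋃ k : ℤ, ⋃ l : ℤ, ⋃ m : ℤ, gg k l m ⁻¹' U := by
    ext q
    simp only [Set.mem_preimage, Set.mem_image, Set.mem_iUnion]
    constructor
    · rintro ⟨p, hp, hpq⟩
      obtain ⟨k, l, m, h⟩ := pr_eq.mp hpq.symm
      exact ⟨k, l, m, h ▸ hp⟩
    · rintro ⟨k, l, m, h⟩
      exact ⟨_, h, pr_gg _ _ _ _⟩
  rw [this]
  exact isOpen_iUnion fun k => isOpen_iUnion fun l => isOpen_iUnion fun m =>
    hU.preimage (gg_cont k l m)

theorem coord_le_dist (p q : E3) (i : Fin 3) : |p i - q i| ≤ dist p q := by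
  rw [EuclideanSpace.dist_eq]
  have h : |p i - q i| = Real.sqrt (dist (p i) (q i) ^ 2) := by
    rw [Real.sqrt_sq dist_nonneg, Real.dist_eq]
  rw [h]
  apply Real.sqrt_le_sqrt
  exact Finset.single_le_sum (f := fun i => dist (p i) (q i) ^ 2) (fun j _ => sq_nonneg _)
    (Finset.mem_univ i)

/-- local injectivity -/
theorem pr_inj {p q : E3} (h : pr p = pr q) (hd : dist p q < 1) : p = q := by
  obtain ⟨k, l, m, rfl⟩ := pr_eq.mp h
  have h0 := coord_le_dist p (gg k l m p) 0
  have h1 := coord_le_dist p (gg k l m p) 1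
  have h2 := coord_le_dist p (gg k l m p) 2
  rw [gg_0] at h0
  rw [gg_1] at h1
  rw [gg_2] at h2
  have hk : k = 0 := by
    have : |(k:ℝ)| < 1 := by
      have : |(k:ℝ)| = |p 0 - (p 0 + k)| := by rw [← abs_neg]; congr 1; ring
      rw [this]; linarith
    have h' : |k| < 1 := by exact_mod_cast this
    exact Int.abs_lt_one_iff.mp h'
  have hl : l = 0 := by
    have : |(l:ℝ)| < 1 := by
      have : |(l:ℝ)| = |p 1 - (p 1 + l)| := by rw [← abs_neg]; congr 1; ring
      rw [this]; linarith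
    have h' : |l| < 1 := by exact_mod_cast this
    exact Int.abs_lt_one_iff.mp h'
  subst hk; subst hl
  have hm : m = 0 := by
    have : |(m:ℝ)| < 1 := by
      have : |(m:ℝ)| = |p 2 - ((ps 0 : ℤ) * p 2 + m)| := by
        rw [ps_zero, ← abs_neg]; congr 1; push_cast; ring
      rw [this]; linarith
    have h' : |m| < 1 := by exact_mod_cast this
    exact Int.abs_lt_one_iff.mp h'
  subst hm
  exact (gg_zero p).symm

instance : T2Space MM := by
  have hoq : IsOpenQuotientMap pr := ⟨pr_surj, pr_cont, pr_open⟩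
  rw [t2Space_iff_of_isOpenQuotientMap hoq]
  have hset : {q : E3 × E3 | pr q.1 = pr q.2} =
      (fun q : E3 × E3 => q.2 0 - q.1 0) ⁻¹' (Set.range ((↑) : ℤ → ℝ)) ∩
      ((fun q : E3 × E3 => q.2 1 - q.1 1) ⁻¹' (Set.range ((↑) : ℤ → ℝ)) ∩
      (fun q : E3 × E3 => q.2 2 - Real.cos ((q.2 0 - q.1 0) * Real.pi) * q.1 2) ⁻¹'
        (Set.range ((↑) : ℤ → ℝ))) := by
    ext ⟨p, q⟩
    simp only [Set.mem_setOf_eq, Set.mem_inter_iff, Set.mem_preimage, Set.mem_range]
    constructor
    · intro h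
      obtain ⟨k, l, m, rfl⟩ := pr_eq.mp h
      refine ⟨⟨k, by rw [gg_0]; ring⟩, ⟨l, by rw [gg_1]; ring⟩, ⟨m, ?_⟩⟩
      rw [gg_0, gg_2]
      have : p 0 + (k:ℝ) - p 0 = k := by ring
      rw [this, cos_ps]; ring
    · rintro ⟨⟨k, hk⟩, ⟨l, hl⟩, ⟨m, hm⟩⟩
      rw [pr_eq]
      refine ⟨k, l, m, ?_⟩
      rw [← hk, cos_ps] at hm
      apply ext3
      · rw [gg_0]; linarith
      · rw [gg_1]; linarith
      · rw [gg_2]; linarith
  rw [hset]
  have hZ : IsClosed (Set.range ((↑) : ℤ → ℝ)) := Int.isClosedEmbedding_coe_real.isClosed_range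
  refine IsClosed.inter (hZ.preimage ?_) (IsClosed.inter (hZ.preimage ?_) (hZ.preimage ?_))
  · fun_prop
  · fun_prop
  · fun_prop

instance : CompactSpace MM := by
  have h : pr '' (Metric.closedBall (0:E3) 2) = Set.univ := by
    rw [Set.eq_univ_iff_forall]
    intro y
    set p := rep y with hp
    let k : ℤ := -⌊p 0⌋
    let l : ℤ := -⌊p 1⌋
    let m : ℤ := -⌊(ps k : ℝ) * p 2⌋
    refine ⟨gg k l m p, ?_, by rw [pr_gg, hp, pr_rep]⟩
    rw [mem_closedBall_zero_iff, EuclideanSpace.norm_eq]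
    have e0 : gg k l m p 0 = Int.fract (p 0) := by
      rw [gg_0]; simp only [k]; push_cast; rw [Int.fract]; ring
    have e1 : gg k l m p 1 = Int.fract (p 1) := by
      rw [gg_1]; simp only [l]; push_cast; rw [Int.fract]; ring
    have e2 : gg k l m p 2 = Int.fract ((ps k : ℝ) * p 2) := by
      rw [gg_2]; simp only [m]; push_cast; rw [Int.fract]; ring
    have f : ∀ x : ℝ, ‖Int.fract x‖ ^ 2 ≤ 1 := by
      intro x
      have h1 := Int.fract_nonneg x
      have h2 := Int.fract_lt_one x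
      rw [Real.norm_of_nonneg h1]
      nlinarith
    rw [Fin.sum_univ_three, e0, e1, e2]
    have : Real.sqrt (‖Int.fract (p 0)‖ ^ 2 + ‖Int.fract (p 1)‖ ^ 2 +
        ‖Int.fract ((ps k : ℝ) * p 2)‖ ^ 2) ≤ Real.sqrt (2 ^ 2) := by
      apply Real.sqrt_le_sqrt
      have := f (p 0); have := f (p 1); have := f ((ps k : ℝ) * p 2)
      linarith
    rw [Real.sqrt_sq (by norm_num)] at this
    exact this
  exact ⟨h ▸ (isCompact_closedBall (0:E3) 2).image pr_cont⟩

theorem pr_injOn (p : E3) : Set.InjOn pr (Metric.ball p (1/4)) := by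
  intro a ha b hb hab
  rw [Metric.mem_ball] at ha hb
  apply pr_inj hab
  have := dist_triangle_right a b p
  linarith

/-- local inverse charts -/
noncomputable def ep (p : E3) : OpenPartialHomeomorph E3 MM :=
  OpenPartialHomeomorph.ofContinuousOpen ((pr_injOn p).toPartialEquiv pr (Metric.ball p (1/4)))
    pr_cont.continuousOn pr_open Metric.isOpen_ball

theorem ep_coe (p : E3) : ⇑(ep p) = pr := rfl

theorem ep_source (p : E3) : (ep p).source = Metric.ball p (1/4) := rfl

theorem ep_target (p : E3) : (ep p).target = pr '' Metric.ball p (1/4) := rfl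

noncomputable instance : ChartedSpace E3 MM where
  atlas := {c | ∃ p, c = (ep p).symm}
  chartAt y := (ep (rep y)).symm
  mem_chart_source y := by
    show y ∈ (ep (rep y)).target
    rw [ep_target]
    exact ⟨rep y, Metric.mem_ball_self (by norm_num), pr_rep y⟩
  chart_mem_atlas y := ⟨rep y, rfl⟩

/-- the local inverse is locally a group element -/
theorem ep_symm_local (p q x : E3) (hx : pr x ∈ (ep q).target) :
    ∃ k l m : ℤ, (fun x' => (ep q).symm (pr x')) =ᶠ[nhds x] gg k l m := by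
  rw [ep_target] at hx
  obtain ⟨y, hy, hyx⟩ := hx
  obtain ⟨k, l, m, rfl⟩ := pr_eq.mp hyx.symm
  refine ⟨k, l, m, ?_⟩
  have hU : gg k l m ⁻¹' (Metric.ball q (1/4)) ∈ nhds x :=
    (gg_cont k l m).continuousAt.preimage_mem_nhds (Metric.isOpen_ball.mem_nhds hy)
  filter_upwards [hU] with x' hx'
  have h1 : (ep q).symm ((ep q) (gg k l m x')) = gg k l m x' :=
    (ep q).left_inv (by rw [ep_source]; exact hx')
  rw [ep_coe, pr_gg] at h1
  exact h1

instance : IsManifold (𝓡 3) ∞ MM := by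
  apply isManifold_of_contDiffOn
  rintro e e' ⟨p, rfl⟩ ⟨q, rfl⟩
  intro x hx
  apply ContDiffAt.contDiffWithinAt
  have hx2 : pr x ∈ (ep q).target := by
    have := hx.1
    simp only [Set.mem_preimage, OpenPartialHomeomorph.trans_source] at this
    exact this.2
  obtain ⟨k, l, m, h⟩ := ep_symm_local p q x hx2
  exact (gg_contDiff k l m).contDiffAt.congr_of_eventuallyEq h

end Pool.Agent.H73W
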