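import Pool.Agent.H73W.Frames

set_option autoImplicit false

namespace Pool.Agent.H73W

open scoped ContDiff

abbrev SS : Finset ℕ := {0, 1}

abbrev XX : Type := (i : ↥SS) → EuclideanSpace ℝ (Fin (2 ^ (i : ℕ) + 1))

/-- coordinate functions of the parametrisation of S^1 -/
noncomputable def ph0 : ℕ → E3 → ℝ
  | 0 => fun p => Real.cos (p 1)
  | _ + 1 => fun p => Real.sin (p 1)

/-- coordinate functions of the parametrisation of S^2 -/
noncomputable def ph1 : ℕ → E3 → ℝ
  | 0 => fun p => Real.cos (Real.pi * p 0) * Real.cos (Real.arctan (p 2))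
  | 1 => fun p => Real.sin (Real.pi * p 0) * Real.cos (Real.arctan (p 2))
  | _ + 2 => fun p => Real.sin (Real.arctan (p 2))

/-- coordinate functions of the parametrisation of S^1 × S^2 -/
noncomputable def ph : ℕ → ℕ → E3 → ℝ
  | 0 => ph0
  | _ + 1 => ph1

noncomputable def Ph (p : E3) : XX := fun i => WithLp.toLp 2 (fun j => ph i j p)

theorem Ph_apply (p : E3) (i : ↥SS) (j : Fin (2 ^ (i : ℕ) + 1)) : Ph p i j = ph i j p := rfl

def i0 : ↥SS := ⟨0, by simp⟩
def i1 : ↥SS := ⟨1, by simp⟩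

theorem SS_cases (i : ↥SS) : i = i0 ∨ i = i1 := by
  rcases i with ⟨i, hi⟩
  simp only [SS, Finset.mem_insert, Finset.mem_singleton] at hi
  rcases hi with rfl | rfl
  · left; rfl
  · right; rfl

theorem ph_contDiff (i j : ℕ) : ContDiff ℝ ∞ (ph i j) := by
  have hat : ContDiff ℝ ∞ (fun p : E3 => Real.arctan (p 2)) := by
    exact (Real.contDiff_arctan).comp (by fun_prop)
  rcases i with _ | i
  · rcases j with _ | j
    · show ContDiff ℝ ∞ (fun p : E3 => Real.cos (p 1)); fun_prop
    · show ContDiff ℝ ∞ (fun p : E3 => Real.sin (p 1)); fun_prop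
  · rcases j with _ | _ | j
    · show ContDiff ℝ ∞ (fun p : E3 => Real.cos (Real.pi * p 0) * Real.cos (Real.arctan (p 2)))
      exact ContDiff.mul (by fun_prop) (Real.contDiff_cos.comp hat)
    · show ContDiff ℝ ∞ (fun p : E3 => Real.sin (Real.pi * p 0) * Real.cos (Real.arctan (p 2)))
      exact ContDiff.mul (by fun_prop) (Real.contDiff_cos.comp hat)
    · show ContDiff ℝ ∞ (fun p : E3 => Real.sin (Real.arctan (p 2)))
      exact (Real.contDiff_sin.comp hat)

theorem Ph_contDiff : ContDiff ℝ ∞ Ph := by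
  rw [contDiff_pi]
  intro i
  rw [contDiff_euclidean]
  intro j
  exact ph_contDiff i j

theorem Ph_norm (p : E3) (i : ↥SS) : ‖Ph p i‖ = 1 := by
  rcases SS_cases i with rfl | rfl
  · have : ‖Ph p i0‖ ^ 2 = 1 := by
      rw [EuclideanSpace.norm_sq_eq]
      show ∑ j : Fin 2, ‖ph 0 j p‖ ^ 2 = 1
      rw [Fin.sum_univ_two]
      show ‖Real.cos (p 1)‖ ^ 2 + ‖Real.sin (p 1)‖ ^ 2 = 1
      simp only [Real.norm_eq_abs, sq_abs]
      exact Real.cos_sq_add_sin_sq _
    have h0 := norm_nonneg (Ph p i0)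
    nlinarith
  · have : ‖Ph p i1‖ ^ 2 = 1 := by
      rw [EuclideanSpace.norm_sq_eq]
      show ∑ j : Fin 3, ‖ph 1 j p‖ ^ 2 = 1
      rw [Fin.sum_univ_three]
      show ‖Real.cos (Real.pi * p 0) * Real.cos (Real.arctan (p 2))‖ ^ 2 +
        ‖Real.sin (Real.pi * p 0) * Real.cos (Real.arctan (p 2))‖ ^ 2 +
        ‖Real.sin (Real.arctan (p 2))‖ ^ 2 = 1
      simp only [Real.norm_eq_abs, sq_abs, mul_pow]
      have h1 := Real.cos_sq_add_sin_sq (Real.pi * p 0)
      have h2 := Real.cos_sq_add_sin_sq (Real.arctan (p 2))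
      linear_combination (Real.cos (Real.arctan (p 2)) ^ 2) * h1 + h2
    have h0 := norm_nonneg (Ph p i1)
    nlinarith

theorem Ph_gl (p : E3) : Ph (gl p) = Function.update (Ph p) i1 (- Ph p i1) := by
  have g0 : gl p 0 = p 0 + 1 := by rw [gl_apply]; rfl
  have g1 : gl p 1 = p 1 := by rw [gl_apply]; rfl
  have g2 : gl p 2 = - p 2 := by rw [gl_apply]; rfl
  funext i
  rcases SS_cases i with rfl | rfl
  · rw [Function.update_of_ne (by simp [i0, i1])]
    ext j
    rw [Ph_apply, Ph_apply]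
    have hj : (j : ℕ) = 0 ∨ (j : ℕ) ≠ 0 := by omega
    rcases hj with h | h
    · show ph 0 j (gl p) = ph 0 j p
      rw [h]
      show Real.cos (gl p 1) = Real.cos (p 1)
      rw [g1]
    · show ph 0 j (gl p) = ph 0 j p
      obtain ⟨m, hm⟩ := Nat.exists_eq_succ_of_ne_zero h
      rw [hm]
      show Real.sin (gl p 1) = Real.sin (p 1)
      rw [g1]
  · rw [Function.update_self]
    ext j
    rw [PiLp.neg_apply, Ph_apply, Ph_apply]
    show ph 1 j (gl p) = - ph 1 j p
    have e0 : Real.pi * gl p 0 = Real.pi * p 0 + Real.pi := by rw [g0]; ring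
    rcases hj : (j : ℕ) with _ | _ | m
    · show Real.cos (Real.pi * gl p 0) * Real.cos (Real.arctan (gl p 2)) =
        -(Real.cos (Real.pi * p 0) * Real.cos (Real.arctan (p 2)))
      rw [e0, g2, Real.arctan_neg, Real.cos_neg, Real.cos_add_pi]; ring
    · show Real.sin (Real.pi * gl p 0) * Real.cos (Real.arctan (gl p 2)) =
        -(Real.sin (Real.pi * p 0) * Real.cos (Real.arctan (p 2)))
      rw [e0, g2, Real.arctan_neg, Real.cos_neg, Real.sin_add_pi]; ring
    · show Real.sin (Real.arctan (gl p 2)) = -(Real.sin (Real.arctan (p 2)))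
      rw [g2, Real.arctan_neg, Real.sin_neg]

/-- the value of the derivative -/
theorem Ph_deriv (p a : E3) (i : ↥SS) (j : Fin (2 ^ (i : ℕ) + 1)) :
    HasDerivAt (fun t : ℝ => ph i j (p + t • a)) ((fderiv ℝ Ph p a) i j) 0 := by
  have h1 : HasFDerivAt Ph (fderiv ℝ Ph p) p :=
    (Ph_contDiff.differentiable (by simp) p).hasFDerivAt
  have h2 : HasDerivAt (fun t : ℝ => p + t • a) a 0 := by
    have := ((hasDerivAt_id (0:ℝ)).smul_const a).const_add p
    simpa using this
  have h3 : HasDerivAt (fun t : ℝ => Ph (p + t • a)) (fderiv ℝ Ph p a) 0 := by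
    have h1' : HasFDerivAt Ph (fderiv ℝ Ph p) (p + (0:ℝ) • a) := by simpa using h1
    exact h1'.comp_hasDerivAt (0:ℝ) h2
  have h4 := (hasDerivAt_pi.mp h3) i
  have h5 : HasDerivAt (fun t : ℝ => (Ph (p + t • a) i) j) ((fderiv ℝ Ph p a) i j) 0 := by
    have hl := (EuclideanSpace.proj (𝕜 := ℝ) j : EuclideanSpace ℝ (Fin (2 ^ (i : ℕ) + 1)) →L[ℝ] ℝ).hasFDerivAt
      (x := Ph (p + (0:ℝ) • a) i)
    exact hl.comp_hasDerivAt (0:ℝ) h4
  exact h5

theorem Ph_inj (p a : E3) (h : fderiv ℝ Ph p a = 0) : a = 0 := by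
  have hline : ∀ k : Fin 3, HasDerivAt (fun t : ℝ => (p + t • a) k) (a k) 0 := by
    intro k
    have : (fun t : ℝ => (p + t • a) k) = fun t => p k + t * a k := by
      funext t; simp
    rw [this]
    simpa using ((hasDerivAt_id (0:ℝ)).mul_const (a k)).const_add (p k)
  have e : ∀ k : Fin 3, (p + (0:ℝ) • a) k = p k := by intro k; simp
  have z : ∀ i j, (fderiv ℝ Ph p a) i j = 0 := by intro i j; rw [h]; rfl
  -- first factor
  have c0 : HasDerivAt (fun t : ℝ => Real.cos ((p + t • a) 1)) (-Real.sin (p 1) * a 1) 0 := by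
    have := (hline 1).cos
    rw [e] at this; exact this
  have s0 : HasDerivAt (fun t : ℝ => Real.sin ((p + t • a) 1)) (Real.cos (p 1) * a 1) 0 := by
    have := (hline 1).sin
    rw [e] at this; exact this
  have c0' := (c0.unique (Ph_deriv p a i0 (0 : Fin 2))).trans (z i0 _)
  have s0' := (s0.unique (Ph_deriv p a i0 (1 : Fin 2))).trans (z i0 _)
  have ha1 : a 1 = 0 := by
    have := Real.cos_sq_add_sin_sq (p 1)
    have h1 : (Real.cos (p 1) ^ 2 + Real.sin (p 1) ^ 2) * a 1 = 0 := by
      linear_combination (Real.cos (p 1)) * s0' - (Real.sin (p 1)) * c0'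
    rwa [this, one_mul] at h1
  -- second factor
  have at2 : HasDerivAt (fun t : ℝ => Real.arctan ((p + t • a) 2)) (1 / (1 + (p 2) ^ 2) * a 2) 0 := by
    have := (hline 2).arctan
    rw [e] at this; exact this
  have hcp : 0 < Real.cos (Real.arctan (p 2)) := Real.cos_arctan_pos _
  have s2 : HasDerivAt (fun t : ℝ => Real.sin (Real.arctan ((p + t • a) 2)))
      (Real.cos (Real.arctan (p 2)) * (1 / (1 + (p 2) ^ 2) * a 2)) 0 := by
    have := at2.sin
    rw [e] at this; exact this
  have s2' := (s2.unique (Ph_deriv p a i1 (2 : Fin 3))).trans (z i1 _)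
  have ha2 : a 2 = 0 := by
    have hpos : (0:ℝ) < 1 / (1 + (p 2) ^ 2) := by positivity
    rcases mul_eq_zero.mp s2' with h1 | h1
    · exact absurd h1 hcp.ne'
    · rcases mul_eq_zero.mp h1 with h2 | h2
      · exact absurd h2 hpos.ne'
      · exact h2
  have c2 : HasDerivAt (fun t : ℝ => Real.cos (Real.arctan ((p + t • a) 2)))
      (-Real.sin (Real.arctan (p 2)) * (1 / (1 + (p 2) ^ 2) * a 2)) 0 := by
    have := at2.cos
    rw [e] at this; exact this
  have l0 : HasDerivAt (fun t : ℝ => Real.pi * (p + t • a) 0) (Real.pi * a 0) 0 :=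
    (hline 0).const_mul _
  have cc : HasDerivAt (fun t : ℝ => Real.cos (Real.pi * (p + t • a) 0))
      (-Real.sin (Real.pi * p 0) * (Real.pi * a 0)) 0 := by
    have := l0.cos
    rw [e] at this; exact this
  have sc : HasDerivAt (fun t : ℝ => Real.sin (Real.pi * (p + t • a) 0))
      (Real.cos (Real.pi * p 0) * (Real.pi * a 0)) 0 := by
    have := l0.sin
    rw [e] at this; exact this
  have k0 := ((cc.mul c2).unique (Ph_deriv p a i1 (0 : Fin 3))).trans (z i1 _)
  have k1 := ((sc.mul c2).unique (Ph_deriv p a i1 (1 : Fin 3))).trans (z i1 _)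
  rw [ha2, e, e] at k0 k1
  simp only [mul_zero, add_zero] at k0 k1
  have ha0 : a 0 = 0 := by
    have := Real.cos_sq_add_sin_sq (Real.pi * p 0)
    have h1 : (Real.cos (Real.pi * p 0) ^ 2 + Real.sin (Real.pi * p 0) ^ 2) *
        (Real.pi * a 0 * Real.cos (Real.arctan (p 2))) = 0 := by
      linear_combination (Real.cos (Real.pi * p 0)) * k1 - (Real.sin (Real.pi * p 0)) * k0
    rw [this, one_mul] at h1
    rcases mul_eq_zero.mp h1 with h2 | h2
    · rcases mul_eq_zero.mp h2 with h3 | h3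
      · exact absurd h3 Real.pi_pos.ne'
      · exact h3
    · exact absurd h2 hcp.ne'
  ext i
  fin_cases i
  · exact ha0
  · exact ha1
  · exact ha2

theorem Ph_tangent (p a : E3) (i : ↥SS) : inner ℝ (Ph p i) ((fderiv ℝ Ph p a) i) = 0 := by
  have h1 : HasFDerivAt Ph (fderiv ℝ Ph p) p :=
    (Ph_contDiff.differentiable (by simp) p).hasFDerivAt
  have h2 : HasDerivAt (fun t : ℝ => p + t • a) a 0 := by
    have := ((hasDerivAt_id (0:ℝ)).smul_const a).const_add p
    simpa using this
  have h3 : HasDerivAt (fun t : ℝ => Ph (p + t • a)) (fderiv ℝ Ph p a) 0 := by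
    have h1' : HasFDerivAt Ph (fderiv ℝ Ph p) (p + (0:ℝ) • a) := by simpa using h1
    exact h1'.comp_hasDerivAt (0:ℝ) h2
  have h4 := (hasDerivAt_pi.mp h3) i
  have h5 := h4.inner ℝ h4
  have h6 : (fun t : ℝ => inner ℝ (Ph (p + t • a) i) (Ph (p + t • a) i)) = fun _ => (1:ℝ) := by
    funext t
    rw [real_inner_self_eq_norm_sq, Ph_norm]; norm_num
  rw [h6] at h5
  have h7 := h5.unique (hasDerivAt_const (0:ℝ) (1:ℝ))
  simp only [zero_smul, add_zero] at h7
  rw [real_inner_comm ((fderiv ℝ Ph p a) i) (Ph p i)] at h7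
  linarith [real_inner_comm ((fderiv ℝ Ph p a) i) (Ph p i)]

theorem Ph_distinct (p q : E3) (hd : dist p q = 1 / 4) :
    ¬ (∀ i, Ph q i = Ph p i ∨ Ph q i = - Ph p i) := by
  intro h
  have small : ∀ k : Fin 3, |p k - q k| ≤ 1 / 4 := by
    intro k
    rw [← hd, EuclideanSpace.dist_eq]
    have h : |p k - q k| = Real.sqrt (dist (p k) (q k) ^ 2) := by
      rw [Real.sqrt_sq dist_nonneg, Real.dist_eq]
    rw [h]
    apply Real.sqrt_le_sqrt
    exact Finset.single_le_sum (f := fun i => dist (p i) (q i) ^ 2) (fun j _ => sq_nonneg _)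
      (Finset.mem_univ k)
  have hpi := Real.pi_gt_three
  have hpi4 := Real.pi_le_four
  -- a small angle with zero sine is zero
  have sine : ∀ x : ℝ, |x| ≤ 1 → Real.sin x = 0 → x = 0 := by
    intro x hx hs
    rw [abs_le] at hx
    exact (Real.sin_eq_zero_iff_of_lt_of_lt (by linarith) (by linarith)).mp hs
  have h1 : p 1 = q 1 := by
    have hc : Real.sin (p 1 - q 1) = 0 := by
      rw [Real.sin_sub]
      rcases h i0 with h0 | h0
      · have a0 : Real.cos (q 1) = Real.cos (p 1) := congrArg (fun v => v (0 : Fin 2)) h0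
        have a1 : Real.sin (q 1) = Real.sin (p 1) := congrArg (fun v => v (1 : Fin 2)) h0
        rw [a0, a1]; ring
      · have a0 : Real.cos (q 1) = - Real.cos (p 1) := congrArg (fun v => v (0 : Fin 2)) h0
        have a1 : Real.sin (q 1) = - Real.sin (p 1) := congrArg (fun v => v (1 : Fin 2)) h0
        rw [a0, a1]; ring
    have := sine _ ((small 1).trans (by norm_num)) hc
    linarith
  have cp : 0 < Real.cos (Real.arctan (p 2)) := Real.cos_arctan_pos _
  have cq : 0 < Real.cos (Real.arctan (q 2)) := Real.cos_arctan_pos _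
  have key : ∀ s : ℝ, (s = 1 ∨ s = -1) →
      Real.cos (Real.pi * q 0) * Real.cos (Real.arctan (q 2)) =
        s * (Real.cos (Real.pi * p 0) * Real.cos (Real.arctan (p 2))) →
      Real.sin (Real.pi * q 0) * Real.cos (Real.arctan (q 2)) =
        s * (Real.sin (Real.pi * p 0) * Real.cos (Real.arctan (p 2))) →
      Real.sin (Real.arctan (q 2)) = s * Real.sin (Real.arctan (p 2)) →
      p 0 = q 0 ∧ p 2 = q 2 := by
    intro s hs e0 e1 e2
    have hc : Real.sin (Real.pi * p 0 - Real.pi * q 0) = 0 := by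
      rw [Real.sin_sub]
      have : (Real.sin (Real.pi * p 0) * Real.cos (Real.pi * q 0) -
        Real.cos (Real.pi * p 0) * Real.sin (Real.pi * q 0)) * Real.cos (Real.arctan (q 2)) = 0 := by
        linear_combination (Real.sin (Real.pi * p 0)) * e0 - (Real.cos (Real.pi * p 0)) * e1
      exact (mul_eq_zero.mp this).resolve_right cq.ne'
    have h0 : p 0 = q 0 := by
      have := sine _ (by
        rw [← mul_sub, abs_mul, abs_of_pos Real.pi_pos]
        have := small 0
        nlinarith [abs_nonneg (p 0 - q 0)]) hc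
      have h3 : Real.pi * (p 0 - q 0) = 0 := by linarith
      have := (mul_eq_zero.mp h3).resolve_left Real.pi_pos.ne'
      linarith
    refine ⟨h0, ?_⟩
    rw [← h0] at e0 e1
    have hs1 : s = 1 := by
      rcases hs with rfl | rfl
      · rfl
      · exfalso
        have h4 := Real.cos_sq_add_sin_sq (Real.pi * p 0)
        have h5 : (Real.cos (Real.pi * p 0) ^ 2 + Real.sin (Real.pi * p 0) ^ 2) *
          (Real.cos (Real.arctan (q 2)) + Real.cos (Real.arctan (p 2))) = 0 := by
          linear_combination (Real.cos (Real.pi * p 0)) * e0 + (Real.sin (Real.pi * p 0)) * e1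
        rw [h4] at h5
        linarith
    rw [hs1, one_mul] at e2
    have := Real.injOn_sin ⟨(Real.neg_pi_div_two_lt_arctan _).le, (Real.arctan_lt_pi_div_two _).le⟩
      ⟨(Real.neg_pi_div_two_lt_arctan _).le, (Real.arctan_lt_pi_div_two _).le⟩ e2
    exact (Real.arctan_injective this).symm
  have h02 : p 0 = q 0 ∧ p 2 = q 2 := by
    rcases h i1 with h0 | h0
    · refine key 1 (Or.inl rfl) ?_ ?_ ?_
      · rw [one_mul]; exact congrArg (fun v => v (0 : Fin 3)) h0
      · rw [one_mul]; exact congrArg (fun v => v (1 : Fin 3)) h0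
      · rw [one_mul]; exact congrArg (fun v => v (2 : Fin 3)) h0
    · refine key (-1) (Or.inr rfl) ?_ ?_ ?_
      · rw [neg_one_mul]; exact congrArg (fun v => v (0 : Fin 3)) h0
      · rw [neg_one_mul]; exact congrArg (fun v => v (1 : Fin 3)) h0
      · rw [neg_one_mul]; exact congrArg (fun v => v (2 : Fin 3)) h0
  have hpq : p = q := by
    ext i
    fin_cases i
    · exact h02.1
    · exact h1
    · exact h02.2
  rw [hpq, dist_self] at hd
  norm_num at hd

theorem no_RP (f : XX → V9) (hf : ContDiff ℝ ∞ f)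
    (hinv : ∀ x : XX, (∀ i, ‖x i‖ = 1) → ∀ i, f (Function.update x i (-x i)) = f x)
    (hTS : ∀ x y : XX, (∀ i, ‖x i‖ = 1) → (∀ i, ‖y i‖ = 1) →
        ¬ (∀ i, y i = x i ∨ y i = -x i) →
        ∀ u w : XX, (∀ i, inner ℝ (x i) (u i) = 0) → (∀ i, inner ℝ (y i) (w i) = 0) →
          ∀ t : ℝ, fderiv ℝ f x u + fderiv ℝ f y w + t • (f y - f x) = 0 →
            u = 0 ∧ w = 0 ∧ t = 0) : False := by
  have hfd : Differentiable ℝ f := hf.differentiable (by simp)
  have hPd : Differentiable ℝ Ph := Ph_contDiff.differentiable (by simp)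
  have hD : ∀ p a, fderiv ℝ (f ∘ Ph) p a = fderiv ℝ f (Ph p) (fderiv ℝ Ph p a) := by
    intro p a
    rw [fderiv_comp p (hfd _) (hPd _)]
    rfl
  refine no_TS (f ∘ Ph) ((hf.comp Ph_contDiff).of_le (by simp)) ?_ ?_
  · intro p
    simp only [Function.comp_apply]
    rw [Ph_gl, hinv _ (Ph_norm p)]
  · intro p q hpq a b t h
    rw [hD, hD] at h
    have key := hTS (Ph p) (Ph q) (Ph_norm p) (Ph_norm q) (Ph_distinct p q hpq)
      (fderiv ℝ Ph p a) (- fderiv ℝ Ph q b) (Ph_tangent p a) (by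
        intro i
        have := Ph_tangent q b i
        rw [Pi.neg_apply, inner_neg_right, this, neg_zero]) (-t) (by
        rw [map_neg, ← h]
        simp only [Function.comp_apply]
        module)
    refine ⟨by linarith [key.2.2], Ph_inj p a key.1, Ph_inj q b (neg_eq_zero.mp key.2.1)⟩

end Pool.Agent.H73W
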