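import Pool.Agent.H73W.Transport

set_option autoImplicit false

namespace Pool.Agent.H73W

open Complex

/-- a continuous function on [0,1] whose exponential is constant takes equal values at the ends -/
theorem const_of_exp {f : ℝ → ℂ} (hf : ContinuousOn f (Set.Icc 0 1))
    (h : ∀ t ∈ Set.Icc (0:ℝ) 1, exp (f t) = exp (f 0)) : f 1 = f 0 := by
  have hint : ∀ t ∈ Set.Icc (0:ℝ) 1, ∃ n : ℕ, ‖f t - f 0‖ = n * (2 * Real.pi) := by
    intro t ht
    obtain ⟨n, hn⟩ := exp_eq_exp_iff_exists_int.mp (h t ht)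
    refine ⟨n.natAbs, ?_⟩
    rw [hn, add_sub_cancel_left, norm_mul]
    have h1 : ‖(2 * (Real.pi:ℂ) * I)‖ = 2 * Real.pi := by
      rw [norm_mul, norm_mul, norm_I]
      simp [abs_of_pos Real.pi_pos]
    rw [h1]
    congr 1
    rw [Complex.norm_intCast, Nat.cast_natAbs]
    push_cast
    rfl
  by_contra hne
  obtain ⟨n, hn⟩ := hint 1 (by simp)
  have hpi := Real.pi_pos
  have hn1 : 1 ≤ n := by
    by_contra h0
    have : n = 0 := by omega
    subst this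
    simp at hn
    exact hne (sub_eq_zero.mp hn)
  have hc : ContinuousOn (fun t => ‖f t - f 0‖) (Set.Icc 0 1) := (hf.sub continuousOn_const).norm
  have hiv := intermediate_value_Icc (zero_le_one' ℝ) hc
  have hmem : Real.pi ∈ Set.Icc (‖f 0 - f 0‖) (‖f 1 - f 0‖) := by
    rw [sub_self, norm_zero, hn]
    refine ⟨hpi.le, ?_⟩
    have : (1:ℝ) ≤ n := by exact_mod_cast hn1
    nlinarith
  obtain ⟨t, ht, ht2⟩ := hiv hmem
  obtain ⟨m, hm⟩ := hint t ht
  simp only at ht2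
  rw [ht2] at hm
  have : (m:ℝ) * 2 = 1 := by
    have : Real.pi * ((m:ℝ) * 2) = Real.pi * 1 := by linarith
    exact mul_left_cancel₀ hpi.ne' this
  have h2 : m * 2 = 1 := by exact_mod_cast this
  omega

/-- The winding number parity argument. -/
theorem no_winding (z : ℝ × ℝ → ℂ) (hz : ContinuousOn z (Set.Icc (0:ℝ) 1 ×ˢ Set.Icc (0:ℝ) 1))
    (hz1 : ∀ θ ∈ Set.Icc (0:ℝ) 1, z (θ, 0) * z (θ, 1) = 1)
    (hz0 : ∀ x ∈ Set.Icc (0:ℝ) 1 ×ˢ Set.Icc (0:ℝ) 1, z x ≠ 0)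
    (h : ℂ → ℂ) (hh : ContinuousOn h (Metric.closedBall 0 1))
    (hh0 : ∀ v ∈ Metric.closedBall (0:ℂ) 1, h v ≠ 0)
    (hrel : ∀ φ ∈ Set.Icc (0:ℝ) 1, - h (exp (φ * Real.pi * I)) =
      z (0, φ) * h (- exp (φ * Real.pi * I)) * z (1, φ)) : False := by
  have hK : IsCompact (Set.Icc (0:ℝ) 1 ×ˢ Set.Icc (0:ℝ) 1) := isCompact_Icc.prod isCompact_Icc
  obtain ⟨ζ, hζ, hζ2⟩ := exists_log hK (by constructor <;> simp) (by
    rintro ⟨a, b⟩ ⟨ha, hb⟩ t ht
    simp only [Set.mem_Icc] at *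
    refine ⟨⟨mul_nonneg ht.1 ha.1, mul_le_one₀ ht.2 ha.1 ha.2⟩,
      ⟨mul_nonneg ht.1 hb.1, mul_le_one₀ ht.2 hb.1 hb.2⟩⟩) z hz hz0
  obtain ⟨ω, hω, hω2⟩ := exists_log (isCompact_closedBall (0:ℂ) 1) (by simp) (by
    intro v hv t ht
    rw [mem_closedBall_zero_iff] at *
    rw [norm_smul, Real.norm_of_nonneg ht.1]
    exact mul_le_one₀ ht.2 (norm_nonneg _) hv) h hh hh0
  have hu : ∀ φ : ℝ, ‖exp (φ * Real.pi * I)‖ = 1 := by
    intro φ
    have : (φ:ℂ) * Real.pi * I = ((φ * Real.pi : ℝ) : ℂ) * I := by push_cast; ring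
    rw [this, norm_exp_ofReal_mul_I]
  have hum : ∀ φ : ℝ, exp (φ * Real.pi * I) ∈ Metric.closedBall (0:ℂ) 1 := by
    intro φ; rw [mem_closedBall_zero_iff, hu]
  have hum' : ∀ φ : ℝ, - exp (φ * Real.pi * I) ∈ Metric.closedBall (0:ℂ) 1 := by
    intro φ; rw [mem_closedBall_zero_iff, norm_neg, hu]
  have hI0 : (0:ℝ) ∈ Set.Icc (0:ℝ) 1 := by simp
  have hI1 : (1:ℝ) ∈ Set.Icc (0:ℝ) 1 := by simp
  -- first constant
  have hA := const_of_exp (f := fun θ => ζ (θ, 0) + ζ (θ, 1)) (by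
      apply ContinuousOn.add
      · exact hζ.comp (by fun_prop) (fun θ hθ => ⟨hθ, hI0⟩)
      · exact hζ.comp (by fun_prop) (fun θ hθ => ⟨hθ, hI1⟩)) (by
      intro t ht
      simp only [exp_add]
      rw [hζ2 _ ⟨ht, hI0⟩, hζ2 _ ⟨ht, hI1⟩, hζ2 _ ⟨hI0, hI0⟩, hζ2 _ ⟨hI0, hI1⟩,
        hz1 t ht, hz1 0 hI0])
  have hucont : Continuous (fun φ : ℝ => exp (φ * Real.pi * I)) := by fun_prop
  have hval : ∀ φ ∈ Set.Icc (0:ℝ) 1, exp (ω (exp (φ * Real.pi * I)) - ω (- exp (φ * Real.pi * I)) -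
      ζ (0, φ) - ζ (1, φ)) = -1 := by
    intro φ hφ
    rw [exp_sub, exp_sub, exp_sub, hω2 _ (hum φ), hω2 _ (hum' φ), hζ2 _ ⟨hI0, hφ⟩,
      hζ2 _ ⟨hI1, hφ⟩]
    have h1 := hrel φ hφ
    have h2 := hh0 _ (hum' φ)
    have h3 := hz0 (0, φ) ⟨hI0, hφ⟩
    have h4 := hz0 (1, φ) ⟨hI1, hφ⟩
    have h5 : h (exp (φ * Real.pi * I)) = - (z (0, φ) * h (- exp (φ * Real.pi * I)) * z (1, φ)) := by
      rw [← h1, neg_neg]
    rw [h5]
    field_simp
  have hB := const_of_exp (f := fun φ => ω (exp (φ * Real.pi * I)) - ω (- exp (φ * Real.pi * I)) -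
      ζ (0, φ) - ζ (1, φ)) (by
      apply ContinuousOn.sub
      · apply ContinuousOn.sub
        · apply ContinuousOn.sub
          · exact hω.comp hucont.continuousOn (fun φ _ => hum φ)
          · exact hω.comp hucont.neg.continuousOn (fun φ _ => hum' φ)
        · exact hζ.comp (by fun_prop) (fun θ hθ => ⟨hI0, hθ⟩)
      · exact hζ.comp (by fun_prop) (fun θ hθ => ⟨hI1, hθ⟩)) (by
      intro t ht
      rw [hval t ht, hval 0 hI0])
  have hv0 := hval 0 hI0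
  simp only [ofReal_zero, zero_mul, exp_zero, ofReal_one, one_mul, exp_pi_mul_I, neg_neg] at hB hv0
  -- hA : ζ(1,0)+ζ(1,1) = ζ(0,0)+ζ(0,1)
  have hsum : ω 1 - ω (-1) - ζ (0,0) - ζ (1,0) = - (ζ (0,0) + ζ (0,1)) := by
    have h2 : (2:ℂ) * (ω 1 - ω (-1) - ζ (0,0) - ζ (1,0)) = 2 * (- (ζ (0,0) + ζ (0,1))) := by
      linear_combination (-1 : ℂ) * hB - hA
    exact mul_left_cancel₀ two_ne_zero h2
  rw [hsum, exp_neg, exp_add, hζ2 _ ⟨hI0, hI0⟩, hζ2 _ ⟨hI0, hI1⟩, hz1 0 hI0] at hv0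
  norm_num at hv0

theorem inv_continuousOn {Y : Type*} [TopologicalSpace Y] {f : Y → Alg} {s : Set Y}
    (hf : ContinuousOn f s) (h0 : ∀ y ∈ s, (f y).det ≠ 0) :
    ContinuousOn (fun y => (f y)⁻¹) s := by
  have h1 := det_continuousOn hf
  have h2 : ContinuousOn (fun y => (f y).adjugate) s := by
    rw [continuousOn_iff_continuous_domRestrict] at *
    exact Continuous.matrix_adjugate hf
  have h3 : (fun y => (f y)⁻¹) = fun y => ((f y).det)⁻¹ • (f y).adjugate := by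
    funext y
    rw [Matrix.inv_def, Ring.inverse_eq_inv']
  rw [h3]
  exact (h1.inv₀ h0).smul h2

/-- signs under the antipodal map -/
def eps : Fin 7 → ℝ := ![1, 1, 1, -1, -1, -1, -1]
/-- signs under the monodromy -/
def del : Fin 7 → ℝ := ![1, 1, -1, 1, 1, -1, 1]

theorem SC.of_list {g : Fin 7 → Alg} (hg : IsCl g) (i a b c d : Fin 7) :
    SC ((if i = a then 1 else -1) * ((if i = b then 1 else -1) * ((if i = c then 1 else -1) *
      (if i = d then 1 else -1)))) (g i) (g a * (g b * (g c * g d))) :=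
  (hg.sc i a).mul ((hg.sc i b).mul ((hg.sc i c).mul (hg.sc i d)))

/-- the two algebraic elements -/
theorem exists_Q {g : Fin 7 → Alg} (hg : IsCl g) : ∃ Q1 Q2 : Alg,
    (∀ i, SC (eps i) (g i) Q1) ∧ (∀ i, SC (del i) (g i) Q2) ∧ Q1 * Q1 = 1 ∧ Q2 * Q2 = -1 ∧
    Q1 * Q2 = - (Q2 * Q1) ∧ (∀ X : Alg, (∀ i, g i * X = X * g i) → (X * Q1 = Q1 * X ∧
      X * Q2 = Q2 * X)) := by
  refine ⟨g 3 * (g 4 * (g 5 * g 6)), g 2 * g 5, ?_, ?_, ?_, ?_, ?_, ?_⟩
  · intro i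
    have := SC.of_list hg i 3 4 5 6
    have h2 : ((if i = 3 then 1 else -1) * ((if i = 4 then 1 else -1) * ((if i = 5 then 1 else -1) *
      (if i = 6 then 1 else -1))) : ℝ) = eps i := by
      fin_cases i <;> simp [eps]
    rwa [h2] at this
  · intro i
    have := (hg.sc i 2).mul (hg.sc i 5)
    have h2 : ((if i = 2 then 1 else -1) * (if i = 5 then 1 else -1) : ℝ) = del i := by
      fin_cases i <;> simp [del]
    rwa [h2] at this
  · have t6 : g 6 * (g 3 * (g 4 * (g 5 * g 6))) = - (g 3 * (g 4 * g 5)) := by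
      have h1 := (hg.scn 6 3 (by decide)).mul ((hg.scn 6 4 (by decide)).mul
        ((hg.scn 6 5 (by decide)).mul (hg.scs 6)))
      norm_num [SC] at h1
      rw [h1]; simp only [mul_assoc, hg.sq, mul_one]
    have t5 : g 5 * (g 3 * (g 4 * g 5)) = (g 3 * g 4) := by
      have h1 := (hg.scn 5 3 (by decide)).mul ((hg.scn 5 4 (by decide)).mul (hg.scs 5))
      norm_num [SC] at h1
      rw [h1]; simp only [mul_assoc, hg.sq, mul_one]
    have t4 : g 4 * (g 3 * g 4) = - g 3 := by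
      have h1 := (hg.scn 4 3 (by decide)).mul (hg.scs 4)
      norm_num [SC] at h1
      rw [h1]; simp only [mul_assoc, hg.sq, mul_one]
    simp only [mul_assoc]
    rw [t6]
    simp only [mul_neg]
    rw [t5, t4]
    simp only [mul_neg, neg_neg]
    rw [hg.sq]
  · have t5 : g 5 * (g 2 * g 5) = - g 2 := by
      have h1 := (hg.scn 5 2 (by decide)).mul (hg.scs 5)
      norm_num [SC] at h1
      rw [h1]; simp only [mul_assoc, hg.sq, mul_one]
    simp only [mul_assoc]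
    rw [t5, mul_neg, hg.sq]
  · -- Q1 Q2 = - Q2 Q1
    have h2 := (hg.scn 2 3 (by decide)).mul ((hg.scn 2 4 (by decide)).mul
        ((hg.scn 2 5 (by decide)).mul (hg.scn 2 6 (by decide))))
    have h5 := (hg.scn 5 3 (by decide)).mul ((hg.scn 5 4 (by decide)).mul
        ((hg.scs 5).mul (hg.scn 5 6 (by decide))))
    norm_num [SC] at h2 h5
    set Q := g 3 * (g 4 * (g 5 * g 6)) with hQ
    calc Q * (g 2 * g 5) = (Q * g 2) * g 5 := (mul_assoc _ _ _).symm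
      _ = g 2 * (Q * g 5) := by rw [← h2]; exact mul_assoc _ _ _
      _ = - (g 2 * g 5 * Q) := by
        have : Q * g 5 = - (g 5 * Q) := by rw [h5, neg_neg]
        rw [this, mul_neg, mul_assoc]
  · intro X hX
    have hs : ∀ i, SC 1 X (g i) := by
      intro i; unfold SC; rw [one_smul]; exact (hX i).symm
    have h1 := (hs 3).mul ((hs 4).mul ((hs 5).mul (hs 6)))
    have h2 := (hs 2).mul (hs 5)
    norm_num [SC] at h1 h2
    exact ⟨h1, h2⟩

/-- The main topological obstruction, for orthonormal frames. -/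
theorem no_frames (w : ℝ × ℂ → Fin 7 → V9)
    (hw : ContinuousOn w (Set.Icc (0:ℝ) 1 ×ˢ Metric.closedBall (0:ℂ) 1))
    (ho : ∀ x ∈ Set.Icc (0:ℝ) 1 ×ˢ Metric.closedBall (0:ℂ) 1, Orthonormal ℝ (w x))
    (h1 : ∀ θ ∈ Set.Icc (0:ℝ) 1, ∀ v : ℂ, ‖v‖ = 1 → ∀ i, w (θ, -v) i = eps i • w (θ, v) i)
    (h2 : ∀ v : ℂ, ‖v‖ ≤ 1 → ∀ i, w (1, -v) i = (eps i * del i) • w (0, v) i) : False := by
  set K := Set.Icc (0:ℝ) 1 ×ˢ Metric.closedBall (0:ℂ) 1 with hKdef
  have hKc : IsCompact K := isCompact_Icc.prod (isCompact_closedBall 0 1)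
  have hI0 : (0:ℝ) ∈ Set.Icc (0:ℝ) 1 := by simp
  have hI1 : (1:ℝ) ∈ Set.Icc (0:ℝ) 1 := by simp
  have hKs : ∀ x ∈ K, ∀ t ∈ Set.Icc (0:ℝ) 1, t • x ∈ K := by
    rintro ⟨a, b⟩ ⟨ha, hb⟩ t ht
    simp only [mem_closedBall_zero_iff] at hb
    refine ⟨⟨mul_nonneg ht.1 ha.1, mul_le_one₀ ht.2 ha.1 ha.2⟩, ?_⟩
    rw [mem_closedBall_zero_iff]
    show ‖t • b‖ ≤ 1
    rw [norm_smul, Real.norm_of_nonneg ht.1]
    exact mul_le_one₀ ht.2 (norm_nonneg _) hb
  have hK0 : (0 : ℝ × ℂ) ∈ K := by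
    refine ⟨by simp, by simp⟩
  set Γ : ℝ × ℂ → Fin 7 → Alg := fun x i => cl (w x i) with hΓ
  have hΓc : ContinuousOn Γ K := by
    rw [continuousOn_pi]
    intro i
    exact cl_continuous.comp_continuousOn ((continuousOn_pi.mp hw) i)
  have hΓcl : ∀ x ∈ K, IsCl (Γ x) := fun x hx => isCl_of_orthonormal (ho x hx)
  obtain ⟨G, hG, hG2⟩ := exists_lift hKc hK0 hKs Γ hΓc hΓcl
  set g := Γ 0 with hg
  have hgcl : IsCl g := hΓcl 0 hK0
  obtain ⟨Q1, Q2, hQ1, hQ2, hQ11, hQ22, hQ12, hQc⟩ := exists_Q hgcl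
  set ι : ℂ →ₐ[ℝ] Alg := Complex.liftAux (J7 g) (J7_sq hgcl) with hι
  have hιinj : Function.Injective ι := RingHom.injective ι.toRingHom
  have hιind : Topology.IsInducing ι := by
    have := LinearMap.isClosedEmbedding_of_injective (f := ι.toLinearMap)
      (LinearMap.ker_eq_bot.mpr hιinj)
    exact this.isInducing
  have hιsurj : ∀ X : Alg, (∀ i, g i * X = X * g i) → ∃ z, ι z = X := by
    intro X hX
    obtain ⟨c, d, hcd⟩ := commutant_seven (ho 0 hK0) hX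
    refine ⟨⟨c, d⟩, ?_⟩
    rw [hι, Complex.liftAux_apply, hcd, Algebra.algebraMap_eq_smul_one]
  have hιcomm : ∀ z i, g i * ι z = ι z * g i := by
    intro z i
    rw [hι, Complex.liftAux_apply, mul_add, add_mul, mul_smul_comm, smul_mul_assoc,
      J7_comm hgcl i, Algebra.commutes]
  have hιQ1 : ∀ z, ι z * Q1 = Q1 * ι z := fun z => (hQc _ (hιcomm z)).1
  have hιQ2 : ∀ z, ι z * Q2 = Q2 * ι z := fun z => (hQc _ (hιcomm z)).2
  have heps : ∀ i, eps i * eps i = 1 := by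
    intro i; fin_cases i <;> simp [eps]
  have hdel : ∀ i, del i * del i = 1 := by
    intro i; fin_cases i <;> simp [del]
  -- inverse facts
  have hGu : ∀ x ∈ K, IsUnit (G x).det := fun x hx => (hG2 x hx).1.isUnit
  have hinv : ∀ x ∈ K, (G x)⁻¹ * G x = 1 := fun x hx => Matrix.nonsing_inv_mul _ (hGu x hx)
  have hinv' : ∀ x ∈ K, G x * (G x)⁻¹ = 1 := fun x hx => Matrix.mul_nonsing_inv _ (hGu x hx)
  -- general transition computation
  have trans : ∀ x ∈ K, ∀ y ∈ K, ∀ s : Fin 7 → ℝ, (∀ i, s i * s i = 1) →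
      (∀ i, w y i = s i • w x i) → ∀ i, SC (s i) (g i) ((G x)⁻¹ * G y) := by
    intro x hx y hy s hs hxy i
    have e1 : Γ x i = s i • Γ y i := by
      simp only [hΓ]
      rw [hxy, map_smul, smul_smul, hs, one_smul]
    have e2 : g i * (G x)⁻¹ = (G x)⁻¹ * Γ x i := by
      calc g i * (G x)⁻¹ = (G x)⁻¹ * G x * g i * (G x)⁻¹ := by rw [hinv x hx, one_mul]
        _ = (G x)⁻¹ * (G x * g i) * (G x)⁻¹ := by simp only [mul_assoc]
        _ = (G x)⁻¹ * (Γ x i * G x) * (G x)⁻¹ := by rw [(hG2 x hx).2 i]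
        _ = (G x)⁻¹ * Γ x i * (G x * (G x)⁻¹) := by simp only [mul_assoc]
        _ = _ := by rw [hinv' x hx, mul_one]
    unfold SC
    calc g i * ((G x)⁻¹ * G y) = (g i * (G x)⁻¹) * G y := by rw [mul_assoc]
      _ = (G x)⁻¹ * (s i • Γ y i) * G y := by rw [e2, e1]
      _ = s i • ((G x)⁻¹ * (Γ y i * G y)) := by
        rw [mul_smul_comm, smul_mul_assoc, mul_assoc]
      _ = s i • ((G x)⁻¹ * G y * g i) := by rw [(hG2 y hy).2 i, mul_assoc]
  -- boundary transition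
  have memθ : ∀ θ ∈ Set.Icc (0:ℝ) 1, ∀ v : ℂ, ‖v‖ ≤ 1 → (θ, v) ∈ K := by
    intro θ hθ v hv
    exact ⟨hθ, by rwa [mem_closedBall_zero_iff]⟩
  have hz : ∀ x : ℝ × ℂ, ∃ z : ℂ, (x.1 ∈ Set.Icc (0:ℝ) 1 ∧ ‖x.2‖ = 1) →
      ι z = Q1 * ((G (x.1, x.2))⁻¹ * G (x.1, -x.2)) := by
    intro x
    by_cases hx : x.1 ∈ Set.Icc (0:ℝ) 1 ∧ ‖x.2‖ = 1
    · obtain ⟨z, hz⟩ := hιsurj (Q1 * ((G (x.1, x.2))⁻¹ * G (x.1, -x.2))) (by
        intro i
        have e1 := trans (x.1, x.2) (memθ _ hx.1 _ hx.2.le) (x.1, -x.2)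
          (memθ _ hx.1 _ (by rw [norm_neg, hx.2])) eps heps (h1 _ hx.1 _ hx.2) i
        have e2 := (hQ1 i).mul e1
        rw [heps, SC, one_smul] at e2
        exact e2)
      exact ⟨z, fun _ => hz⟩
    · exact ⟨0, fun h => absurd h hx⟩
  choose z hz using hz
  have hzG : ∀ θ ∈ Set.Icc (0:ℝ) 1, ∀ v : ℂ, ‖v‖ = 1 → G (θ, -v) = G (θ, v) * (Q1 * ι (z (θ, v))) := by
    intro θ hθ v hv
    rw [hz (θ, v) ⟨hθ, hv⟩, ← mul_assoc Q1 Q1, hQ11, one_mul, ← mul_assoc,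
      hinv' _ (memθ θ hθ v hv.le), one_mul]
  have hh : ∀ v : ℂ, ∃ c : ℂ, ‖v‖ ≤ 1 → ι c = -(Q2 * Q1 * ((G (0, v))⁻¹ * G (1, -v))) := by
    intro v
    by_cases hv : ‖v‖ ≤ 1
    · obtain ⟨c, hc⟩ := hιsurj (Q2 * Q1 * ((G (0, v))⁻¹ * G (1, -v))) (by
        intro i
        have e1 := trans (0, v) (memθ _ hI0 _ hv) (1, -v)
          (memθ _ hI1 _ (by rwa [norm_neg])) (fun i => eps i * del i)
          (fun i => by
            have := heps i; have := hdel i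
            nlinarith [mul_mul_mul_comm (eps i) (del i) (eps i) (del i)]) (h2 _ hv) i
        have e2 := ((hQ2 i).mul (hQ1 i)).mul e1
        have e3 : del i * eps i * (eps i * del i) = 1 := by
          have := heps i; have := hdel i
          calc del i * eps i * (eps i * del i) = (eps i * eps i) * (del i * del i) := by ring
            _ = 1 := by rw [heps, hdel, one_mul]
        rw [e3, SC, one_smul] at e2
        exact e2)
      refine ⟨-c, fun _ => ?_⟩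
      rw [map_neg, hc]
    · exact ⟨0, fun h => absurd h hv⟩
  choose h hh using hh
  have hhG : ∀ v : ℂ, ‖v‖ ≤ 1 → G (1, -v) = G (0, v) * (Q1 * Q2 * ι (h v)) := by
    intro v hv
    have e : Q1 * Q2 * (Q2 * Q1) = -1 := by
      calc Q1 * Q2 * (Q2 * Q1) = Q1 * (Q2 * Q2) * Q1 := by simp only [mul_assoc]
        _ = -1 := by rw [hQ22]; simp [hQ11]
    rw [hh v hv, mul_neg, ← mul_assoc (Q1 * Q2), e, neg_one_mul, neg_neg, ← mul_assoc,
      hinv' _ (memθ 0 hI0 v hv), one_mul]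
  -- cancellation
  have cancel : ∀ x ∈ K, ∀ A B : Alg, G x * A = G x * B → A = B := by
    intro x hx A B hAB
    calc A = (G x)⁻¹ * (G x * A) := by rw [← mul_assoc, hinv x hx, one_mul]
      _ = (G x)⁻¹ * (G x * B) := by rw [hAB]
      _ = B := by rw [← mul_assoc, hinv x hx, one_mul]
  have hzz : ∀ θ ∈ Set.Icc (0:ℝ) 1, ∀ v : ℂ, ‖v‖ = 1 → z (θ, v) * z (θ, -v) = 1 := by
    intro θ hθ v hv
    have e1 := hzG θ hθ v hv
    have e2 := hzG θ hθ (-v) (by rw [norm_neg, hv])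
    rw [neg_neg] at e2
    have e3 : G (θ, v) * 1 = G (θ, v) * ((Q1 * ι (z (θ, v))) * (Q1 * ι (z (θ, -v)))) := by
      rw [mul_one, ← mul_assoc, ← e1, ← e2]
    have e4 := cancel _ (memθ θ hθ v hv.le) _ _ e3
    apply hιinj
    rw [map_mul, map_one, e4]
    calc ι (z (θ, v)) * ι (z (θ, -v)) = Q1 * Q1 * ι (z (θ, v)) * ι (z (θ, -v)) := by
          rw [hQ11, one_mul]
      _ = Q1 * (Q1 * ι (z (θ, v))) * ι (z (θ, -v)) := by simp only [mul_assoc]
      _ = Q1 * (ι (z (θ, v)) * Q1) * ι (z (θ, -v)) := by rw [hιQ1]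
      _ = _ := by simp only [mul_assoc]
  have hhn : ∀ v : ℂ, ‖v‖ ≤ 1 → h v ≠ 0 := by
    intro v hv h0
    have e1 := hhG v hv
    rw [h0, map_zero, mul_zero, mul_zero] at e1
    have e2 := (hG2 (1, -v) (memθ _ hI1 _ (by rwa [norm_neg]))).1
    rw [e1] at e2
    simp at e2
  have hrel : ∀ v : ℂ, ‖v‖ = 1 → - h v = z (0, v) * h (-v) * z (1, v) := by
    intro v hv
    have e1 := hhG v hv.le
    have e2 := hzG 1 hI1 v hv
    have e3 := hhG (-v) (by rw [norm_neg, hv])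
    rw [neg_neg] at e3
    have e4 := hzG 0 hI0 v hv
    rw [e2, e3, e4] at e1
    simp only [mul_assoc] at e1
    have e5 := cancel _ (memθ 0 hI0 v hv.le) _ _ e1
    -- e5 : Q1 * (ι z0 * (Q1 * (Q2 * (ι h' * (Q1 * ι z1))))) = Q1 * (Q2 * ι h)
    have e6 : Q2 * Q1 * ι (z (0, v) * h (-v) * z (1, v)) = Q1 * Q2 * ι (h v) := by
      rw [mul_assoc Q1 Q2, ← e5, map_mul, map_mul]
      have a1 : ι (z (0, v)) * (Q1 * (Q2 * (ι (h (-v)) * (Q1 * ι (z (1, v)))))) =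
          Q1 * (Q2 * (Q1 * (ι (z (0, v)) * (ι (h (-v)) * ι (z (1, v)))))) := by
        rw [← mul_assoc, hιQ1, mul_assoc, ← mul_assoc (ι (z (0, v))) Q2, hιQ2, mul_assoc,
          ← mul_assoc (ι (h (-v))) Q1, hιQ1, mul_assoc, ← mul_assoc (ι (z (0, v))) Q1, hιQ1,
          mul_assoc]
      rw [a1, ← mul_assoc Q1 Q1, hQ11, one_mul]
      simp only [mul_assoc]
    have e7 : Q2 * Q1 * (ι (z (0, v) * h (-v) * z (1, v)) + ι (h v)) = 0 := by
      rw [mul_add, e6, hQ12, neg_mul, neg_add_cancel]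
    have e8 : ι (z (0, v) * h (-v) * z (1, v)) + ι (h v) = 0 := by
      have : Q1 * (-Q2) * (Q2 * Q1 * (ι (z (0, v) * h (-v) * z (1, v)) + ι (h v))) =
          ι (z (0, v) * h (-v) * z (1, v)) + ι (h v) := by
        calc Q1 * (-Q2) * (Q2 * Q1 * (ι (z (0, v) * h (-v) * z (1, v)) + ι (h v)))
            = -(Q1 * (Q2 * Q2) * Q1) * (ι (z (0, v) * h (-v) * z (1, v)) + ι (h v)) := by
              simp only [mul_assoc, mul_neg, neg_mul]
          _ = _ := by rw [hQ22]; simp [hQ11]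
      rw [← this, e7, mul_zero]
    rw [← map_add] at e8
    have e9 := hιinj (e8.trans (map_zero ι).symm)
    exact (eq_neg_of_add_eq_zero_left e9).symm
  -- apply the winding argument
  have hu : ∀ φ : ℝ, ‖exp (φ * Real.pi * I)‖ = 1 := by
    intro φ
    have : (φ:ℂ) * Real.pi * I = ((φ * Real.pi : ℝ) : ℂ) * I := by push_cast; ring
    rw [this, norm_exp_ofReal_mul_I]
  have hucont : Continuous (fun φ : ℝ => exp (φ * Real.pi * I)) := by fun_prop
  have hGinv : ContinuousOn (fun x => (G x)⁻¹) K := inv_continuousOn hG (fun x hx => (hG2 x hx).1)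
  refine no_winding (fun x => z (x.1, exp (x.2 * Real.pi * I))) ?_ ?_ ?_ h ?_ ?_ ?_
  · rw [hιind.continuousOn_iff]
    have e1 : ContinuousOn (fun x : ℝ × ℝ => Q1 * ((G (x.1, exp (x.2 * Real.pi * I)))⁻¹ *
        G (x.1, - exp (x.2 * Real.pi * I)))) (Set.Icc (0:ℝ) 1 ×ˢ Set.Icc (0:ℝ) 1) := by
      apply ContinuousOn.mul continuousOn_const
      apply ContinuousOn.mul
      · exact hGinv.comp (f := fun x : ℝ × ℝ => (x.1, exp (x.2 * Real.pi * I))) (by fun_prop)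
          (fun x hx => memθ _ hx.1 _ (hu _).le)
      · exact hG.comp (f := fun x : ℝ × ℝ => (x.1, - exp (x.2 * Real.pi * I))) (by fun_prop)
          (fun x hx => memθ _ hx.1 _ (by rw [norm_neg]; exact (hu _).le))
    refine e1.congr ?_
    intro x hx
    exact hz (x.1, exp (x.2 * Real.pi * I)) ⟨hx.1, hu _⟩
  · intro θ hθ
    have := hzz θ hθ 1 (by simp)
    simpa using this
  · intro x hx h0
    have := hzz x.1 hx.1 (exp (x.2 * Real.pi * I)) (hu _)
    have h0' : z (x.1, exp (x.2 * Real.pi * I)) = 0 := h0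
    rw [h0', zero_mul] at this
    exact zero_ne_one this
  · rw [hιind.continuousOn_iff]
    have e1 : ContinuousOn (fun v : ℂ => -(Q2 * Q1 * ((G (0, v))⁻¹ * G (1, -v))))
        (Metric.closedBall 0 1) := by
      apply ContinuousOn.neg
      apply ContinuousOn.mul continuousOn_const
      apply ContinuousOn.mul
      · exact hGinv.comp (f := fun v : ℂ => ((0:ℝ), v)) (by fun_prop)
          (fun v hv => memθ _ hI0 _ (by rwa [mem_closedBall_zero_iff] at hv))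
      · exact hG.comp (f := fun v : ℂ => ((1:ℝ), -v)) (by fun_prop)
          (fun v hv => memθ _ hI1 _ (by rwa [mem_closedBall_zero_iff, ← norm_neg] at hv))
    refine e1.congr ?_
    intro v hv
    exact hh v (by rwa [mem_closedBall_zero_iff] at hv)
  · intro v hv
    exact hhn v (by rwa [mem_closedBall_zero_iff] at hv)
  · intro φ hφ
    exact hrel _ (hu φ)

end Pool.Agent.H73W
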