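import Pool.Agent.H73W.Cliff

set_option autoImplicit false

namespace Pool.Agent.H73W

/-- Transport along rays in a star-shaped bounded set. -/
theorem ray {X S : Type*} [NormedAddCommGroup X] [NormedSpace ℝ X] [TopologicalSpace S]
    {K : Set X} (hK : ∀ x ∈ K, ∀ t ∈ Set.Icc (0:ℝ) 1, t • x ∈ K) {R : ℝ} (hR : ∀ x ∈ K, ‖x‖ ≤ R)
    {δ : ℝ} (hδ : 0 < δ) (T : X → X → S → S)
    (hT : ContinuousOn (fun p : (X × X) × S => T p.1.1 p.1.2 p.2)
      {p | p.1.1 ∈ K ∧ p.1.2 ∈ K ∧ dist p.1.1 p.1.2 < δ})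
    (P : X → S → Prop) (s0 : S) (h0 : P 0 s0)
    (hstep : ∀ x ∈ K, ∀ y ∈ K, dist x y < δ → ∀ s, P y s → P x (T x y s)) :
    ∃ G : X → S, ContinuousOn G K ∧ ∀ x ∈ K, P x (G x) := by
  obtain ⟨n, hn⟩ := exists_nat_gt (max (R / δ) 0)
  have hn0 : (0:ℝ) < n := lt_of_le_of_lt (le_max_right _ _) hn
  have hnR : R / δ < n := lt_of_le_of_lt (le_max_left _ _) hn
  have hRn : R / n < δ := by
    rw [div_lt_iff₀ hn0]
    rw [div_lt_iff₀ hδ] at hnR
    linarith
  let G : ℕ → X → S := fun j => Nat.rec (fun _ => s0)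
    (fun j g x => T ((((j:ℝ) + 1) / n) • x) (((j:ℝ) / n) • x) (g x)) j
  have hG0 : ∀ x, G 0 x = s0 := fun x => rfl
  have hGs : ∀ j x, G (j+1) x = T ((((j:ℝ) + 1) / n) • x) (((j:ℝ) / n) • x) (G j x) :=
    fun j x => rfl
  have main : ∀ j : ℕ, j ≤ n → ContinuousOn (G j) K ∧ ∀ x ∈ K, P (((j:ℝ) / n) • x) (G j x) := by
    intro j
    induction j with
    | zero =>
      intro _
      refine ⟨continuousOn_const, ?_⟩
      intro x _
      rw [hG0]
      simpa using h0
    | succ j ih =>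
      intro hj
      obtain ⟨ih1, ih2⟩ := ih (by omega)
      have hjn : (j:ℝ) + 1 ≤ n := by exact_mod_cast hj
      have hj0 : (0:ℝ) ≤ j := Nat.cast_nonneg j
      have m1 : ((j:ℝ) + 1) / n ∈ Set.Icc (0:ℝ) 1 := by
        constructor
        · positivity
        · rw [div_le_one hn0]; exact hjn
      have m0 : (j:ℝ) / n ∈ Set.Icc (0:ℝ) 1 := by
        constructor
        · positivity
        · rw [div_le_one hn0]; linarith
      have hd : ∀ x ∈ K, dist ((((j:ℝ) + 1) / n) • x) (((j:ℝ) / n) • x) < δ := by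
        intro x hx
        rw [dist_eq_norm, ← sub_smul, norm_smul]
        have : ((j:ℝ) + 1) / n - j / n = 1 / n := by ring
        rw [this, Real.norm_of_nonneg (by positivity)]
        calc 1 / (n:ℝ) * ‖x‖ ≤ 1 / n * R := by
              apply mul_le_mul_of_nonneg_left (hR x hx); positivity
          _ = R / n := by ring
          _ < δ := hRn
      constructor
      · have : G (j+1) = (fun p : (X × X) × S => T p.1.1 p.1.2 p.2) ∘
            (fun x => (((((j:ℝ) + 1) / n) • x, ((j:ℝ) / n) • x), G j x)) := by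
          funext x; exact hGs j x
        rw [this]
        refine hT.comp ?_ ?_
        · exact ContinuousOn.prodMk (ContinuousOn.prodMk (by fun_prop) (by fun_prop)) ih1
        · intro x hx
          exact ⟨hK x hx _ m1, hK x hx _ m0, hd x hx⟩
      · intro x hx
        rw [hGs]
        push_cast
        exact hstep _ (hK x hx _ m1) _ (hK x hx _ m0) (hd x hx) _ (ih2 x hx)
  obtain ⟨h1, h2⟩ := main n le_rfl
  refine ⟨G n, h1, ?_⟩
  intro x hx
  have := h2 x hx
  rwa [div_self hn0.ne', one_smul] at this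

/-- one averaging step -/
def stp (a b X : Alg) : Alg := X + a * X * b

/-- intertwiner between two systems -/
def tw (a b : Fin 7 → Alg) : Alg :=
  stp (a 6) (b 6) (stp (a 5) (b 5) (stp (a 4) (b 4) (stp (a 3) (b 3) (stp (a 2) (b 2)
    (stp (a 1) (b 1) (stp (a 0) (b 0) 1))))))

theorem stp_self {a b X : Alg} (ha : a * a = 1) (hb : b * b = 1) :
    a * stp a b X = stp a b X * b := by
  unfold stp
  rw [mul_add, add_mul, ← mul_assoc, ← mul_assoc, ha, one_mul, mul_assoc (a * X), hb, mul_one,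
    add_comm]

theorem stp_other {a b c d X : Alg} (ha : c * a = - (a * c)) (hb : d * b = - (b * d))
    (hX : c * X = X * d) : c * stp a b X = stp a b X * d := by
  unfold stp
  have e : c * (a * X * b) = a * X * b * d := by
    calc c * (a * X * b) = (c * a) * X * b := by simp only [mul_assoc]
      _ = - (a * (c * X) * b) := by rw [ha]; simp only [mul_assoc, neg_mul]
      _ = - (a * X * (d * b)) := by rw [hX]; simp only [mul_assoc]
      _ = a * X * b * d := by rw [hb]; simp only [mul_assoc, mul_neg, neg_neg]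
  rw [mul_add, add_mul, hX, e]

theorem tw_intertwine {a b : Fin 7 → Alg} (ha : IsCl a) (hb : IsCl b) (i : Fin 7) :
    a i * tw a b = tw a b * b i := by
  unfold tw
  have self : ∀ (j : Fin 7) (X : Alg), a j * stp (a j) (b j) X = stp (a j) (b j) X * b j :=
    fun j X => stp_self (ha.sq j) (hb.sq j)
  have other : ∀ (i j : Fin 7) (X : Alg), i ≠ j → a i * X = X * b i →
      a i * stp (a j) (b j) X = stp (a j) (b j) X * b i :=
    fun i j X hij hX => stp_other (ha.anti i j hij) (hb.anti i j hij) hX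
  fin_cases i
  · exact other 0 6 _ (by decide) (other 0 5 _ (by decide) (other 0 4 _ (by decide)
      (other 0 3 _ (by decide) (other 0 2 _ (by decide) (other 0 1 _ (by decide) (self 0 _))))))
  · exact other 1 6 _ (by decide) (other 1 5 _ (by decide) (other 1 4 _ (by decide)
      (other 1 3 _ (by decide) (other 1 2 _ (by decide) (self 1 _)))))
  · exact other 2 6 _ (by decide) (other 2 5 _ (by decide) (other 2 4 _ (by decide)
      (other 2 3 _ (by decide) (self 2 _))))
  · exact other 3 6 _ (by decide) (other 3 5 _ (by decide) (other 3 4 _ (by decide) (self 3 _)))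
  · exact other 4 6 _ (by decide) (other 4 5 _ (by decide) (self 4 _))
  · exact other 5 6 _ (by decide) (self 5 _)
  · exact self 6 _

theorem tw_self {a : Fin 7 → Alg} (ha : IsCl a) : tw a a = (128 : ℝ) • (1 : Alg) := by
  have h : ∀ (i : Fin 7) (c : ℝ), stp (a i) (a i) (c • (1 : Alg)) = (2 * c) • (1 : Alg) := by
    intro i c
    unfold stp
    rw [mul_smul_comm, mul_one, smul_mul_assoc, ha.sq, ← add_smul, two_mul]
  unfold tw
  rw [show (1 : Alg) = (1 : ℝ) • (1 : Alg) by simp]
  rw [h, h, h, h, h, h, h]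
  norm_num

theorem tw_continuous : Continuous (fun p : (Fin 7 → Alg) × (Fin 7 → Alg) => tw p.1 p.2) := by
  unfold tw stp
  fun_prop

attribute [irreducible] tw

theorem det_continuousOn {Y : Type*} [TopologicalSpace Y] {f : Y → Alg} {s : Set Y}
    (hf : ContinuousOn f s) : ContinuousOn (fun y => (f y).det) s := by
  rw [continuousOn_iff_continuous_domRestrict] at *
  exact Continuous.matrix_det hf

/-- A continuous family of Clifford systems on a compact star-shaped set is conjugate to the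
constant one. -/
theorem exists_lift {X : Type*} [NormedAddCommGroup X] [NormedSpace ℝ X]
    {K : Set X} (hKc : IsCompact K) (hK0 : (0 : X) ∈ K)
    (hK : ∀ x ∈ K, ∀ t ∈ Set.Icc (0:ℝ) 1, t • x ∈ K)
    (Γ : X → Fin 7 → Alg) (hΓ : ContinuousOn Γ K) (hcl : ∀ x ∈ K, IsCl (Γ x)) :
    ∃ G : X → Alg, ContinuousOn G K ∧ ∀ x ∈ K, ((G x).det ≠ 0 ∧ ∀ i, Γ x i * G x = G x * Γ 0 i) := by
  obtain ⟨R, hR⟩ := hKc.isBounded.exists_norm_le
  have htw := tw_continuous
  have hD : ContinuousOn (fun p : X × X => (tw (Γ p.1) (Γ p.2)).det) (K ×ˢ K) := by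
    have h1 : ContinuousOn (fun p : X × X => Γ p.1) (K ×ˢ K) :=
      hΓ.comp continuousOn_fst (fun p hp => hp.1)
    have h2 : ContinuousOn (fun p : X × X => Γ p.2) (K ×ˢ K) :=
      hΓ.comp continuousOn_snd (fun p hp => hp.2)
    have h5 : ContinuousOn (fun p : X × X => tw (Γ p.1) (Γ p.2)) (K ×ˢ K) :=
      htw.comp_continuousOn (h1.prodMk h2)
    exact det_continuousOn h5
  have hunif := (hKc.prod hKc).uniformContinuousOn_of_continuous hD
  rw [Metric.uniformContinuousOn_iff] at hunif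
  obtain ⟨δ, hδ, hδ2⟩ := hunif 1 one_pos
  have hdiag : ∀ x ∈ K, (1:ℝ) ≤ (tw (Γ x) (Γ x)).det := by
    intro x hx
    rw [tw_self (hcl x hx), Matrix.det_smul, Matrix.det_one, mul_one]
    norm_num
  have hpos : ∀ x ∈ K, ∀ y ∈ K, dist x y < δ → (tw (Γ x) (Γ y)).det ≠ 0 := by
    intro x hx y hy hxy
    have h1 := hδ2 (x, y) ⟨hx, hy⟩ (x, x) ⟨hx, hx⟩ (by
      rw [Prod.dist_eq]; simp only [dist_self]; rw [dist_comm]; simpa [hδ] using hxy)
    rw [Real.dist_eq, abs_lt] at h1
    have h2 := hdiag x hx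
    simp only at h1
    intro h3
    rw [h3] at h1
    linarith [h1.1]
  refine ray hK hR hδ (fun x y s => tw (Γ x) (Γ y) * s) ?_
    (fun x s => s.det ≠ 0 ∧ ∀ i, Γ x i * s = s * Γ 0 i) 1 ?_ ?_
  · have h1 : ContinuousOn (fun p : (X × X) × Alg => Γ p.1.1)
        {p | p.1.1 ∈ K ∧ p.1.2 ∈ K ∧ dist p.1.1 p.1.2 < δ} :=
      hΓ.comp (continuous_fst.comp continuous_fst).continuousOn (fun p hp => hp.1)
    have h2 : ContinuousOn (fun p : (X × X) × Alg => Γ p.1.2)
        {p | p.1.1 ∈ K ∧ p.1.2 ∈ K ∧ dist p.1.1 p.1.2 < δ} :=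
      hΓ.comp (continuous_snd.comp continuous_fst).continuousOn (fun p hp => hp.2.1)
    have h3 : ContinuousOn (fun p : (X × X) × Alg => tw (Γ p.1.1) (Γ p.1.2))
        {p | p.1.1 ∈ K ∧ p.1.2 ∈ K ∧ dist p.1.1 p.1.2 < δ} :=
      htw.comp_continuousOn (h1.prodMk h2)
    exact h3.mul continuousOn_snd
  · simp
  · intro x hx y hy hxy s hs
    refine ⟨?_, ?_⟩
    · rw [Matrix.det_mul]
      exact mul_ne_zero (hpos x hx y hy hxy) hs.1
    · intro i
      rw [← mul_assoc, tw_intertwine (hcl x hx) (hcl y hy), mul_assoc, hs.2, mul_assoc]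

/-- continuous logarithm on a compact star-shaped set -/
theorem exists_log {X : Type*} [NormedAddCommGroup X] [NormedSpace ℝ X]
    {K : Set X} (hKc : IsCompact K) (hK0 : (0 : X) ∈ K)
    (hK : ∀ x ∈ K, ∀ t ∈ Set.Icc (0:ℝ) 1, t • x ∈ K)
    (z : X → ℂ) (hz : ContinuousOn z K) (hz0 : ∀ x ∈ K, z x ≠ 0) :
    ∃ w : X → ℂ, ContinuousOn w K ∧ ∀ x ∈ K, Complex.exp (w x) = z x := by
  obtain ⟨R, hR⟩ := hKc.isBounded.exists_norm_le
  have hD : ContinuousOn (fun p : X × X => z p.1 / z p.2) (K ×ˢ K) := by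
    apply ContinuousOn.div
    · exact hz.comp continuousOn_fst (fun p hp => hp.1)
    · exact hz.comp continuousOn_snd (fun p hp => hp.2)
    · exact fun p hp => hz0 _ hp.2
  have hunif := (hKc.prod hKc).uniformContinuousOn_of_continuous hD
  rw [Metric.uniformContinuousOn_iff] at hunif
  obtain ⟨δ, hδ, hδ2⟩ := hunif 1 one_pos
  have hpos : ∀ x ∈ K, ∀ y ∈ K, dist x y < δ → z x / z y ∈ Complex.slitPlane := by
    intro x hx y hy hxy
    have h1 := hδ2 (x, y) ⟨hx, hy⟩ (x, x) ⟨hx, hx⟩ (by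
      rw [Prod.dist_eq]; simp only [dist_self]; rw [dist_comm]; simpa [hδ] using hxy)
    simp only at h1
    rw [div_self (hz0 x hx), Complex.dist_eq] at h1
    left
    have h2 := Complex.abs_re_le_norm (z x / z y - 1)
    rw [Complex.sub_re, Complex.one_re] at h2
    have h3 := (abs_lt.mp (lt_of_le_of_lt h2 h1)).1
    linarith
  refine ray hK hR hδ (fun x y s => Complex.log (z x / z y) + s) ?_
    (fun x s => Complex.exp s = z x) (Complex.log (z 0)) (Complex.exp_log (hz0 0 hK0)) ?_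
  · apply ContinuousOn.add
    · apply ContinuousOn.clog
      · apply ContinuousOn.div
        · exact hz.comp (by fun_prop) (fun p hp => hp.1)
        · exact hz.comp (by fun_prop) (fun p hp => hp.2.1)
        · exact fun p hp => hz0 _ hp.2.1
      · intro p hp
        exact hpos _ hp.1 _ hp.2.1 hp.2.2
    · fun_prop
  · intro x hx y hy hxy s hs
    rw [Complex.exp_add, hs, Complex.exp_log (div_ne_zero (hz0 x hx) (hz0 y hy)),
      div_mul_cancel₀ _ (hz0 y hy)]

end Pool.Agent.H73W
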